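import Pool.Agent.E8helper93.SQ.Core
import Pool.Agent.Y821.DD.Primes

/-!
# Dense sets of squares have many representations: asymptotic form
-/

set_option autoImplicit false

namespace Pool.Agent.E8helper93.SQ

open Finset Filter Topology

/-- `(3 + x) / 4 ≤ ((1 + x) / 2) ^ θ`, `θ = log (4/3) / log 2` -/
lemma rpow_ge {x : ℝ} (h0 : 0 ≤ x) (h1 : x ≤ 1) :
    3 / 4 + x / 4 ≤ ((1 + x) / 2) ^ (Real.log (4 / 3) / Real.log 2) := by
  have hl2 : 0 < Real.log 2 := Real.log_pos (by norm_num)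
  have hl43 : 0 < Real.log (4 / 3) := Real.log_pos (by norm_num)
  have hθ0 : 0 ≤ Real.log (4 / 3) / Real.log 2 := by positivity
  have hθ1 : Real.log (4 / 3) / Real.log 2 ≤ 1 := by
    rw [div_le_one hl2]
    exact Real.log_le_log (by norm_num) (by norm_num)
  have hc := (Real.concaveOn_rpow hθ0 hθ1).2 (x := (1 / 2 : ℝ)) (by norm_num : (1 / 2 : ℝ) ∈ Set.Ici 0)
    (y := 1) (by norm_num : (1 : ℝ) ∈ Set.Ici 0) (sub_nonneg.2 h1) h0 (by ring)
  simp only [smul_eq_mul, Real.one_rpow] at hc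
  have e1 : (1 / 2 : ℝ) ^ (Real.log (4 / 3) / Real.log 2) = 3 / 4 := by
    rw [Real.rpow_def_of_pos (by norm_num)]
    have : Real.log (1 / 2) * (Real.log (4 / 3) / Real.log 2) = Real.log (3 / 4) := by
      rw [one_div, Real.log_inv]
      have h34 : Real.log (3 / 4) = -Real.log (4 / 3) := by
        rw [← Real.log_inv]; norm_num
      rw [h34]
      field_simp
    rw [this, Real.exp_log (by norm_num)]
  rw [e1] at hc
  have e2 : (1 - x) * (1 / 2) + x * 1 = (1 + x) / 2 := by ring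
  rw [e2] at hc
  linarith

lemma prod_rpow (P : Finset ℕ) (hP : ∀ p ∈ P, p.Prime) :
    ∏ p ∈ P, (3 / 4 + 1 / (4 * (p : ℝ))) ≤
      (∏ p ∈ P, ((1 + 1 / (p : ℝ)) / 2)) ^ (Real.log (4 / 3) / Real.log 2) := by
  rw [← Real.finsetProd_rpow _ _ (fun p _ => by positivity)]
  apply Finset.prod_le_prod
  · intro p _; positivity
  · intro p hp
    have h1 : (1 : ℝ) ≤ p := by exact_mod_cast (hP p hp).one_lt.le
    have h2 := rpow_ge (x := 1 / (p : ℝ)) (by positivity) (by rw [div_le_one (by linarith)]; exact h1)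
    have e : (1 : ℝ) / (4 * p) = 1 / p / 4 := by ring
    rw [e]
    exact h2

lemma div_log_ge {x : ℝ} (hx : 1 < x) : √x / 2 ≤ x / Real.log x := by
  have hx0 : 0 < x := by linarith
  have hs : 0 < √x := Real.sqrt_pos.2 hx0
  have h1 : Real.log x = 2 * Real.log (√x) := by
    rw [Real.log_sqrt hx0.le]; ring
  have h2 := Real.log_le_sub_one_of_pos hs
  have h3 : 0 < Real.log x := Real.log_pos hx
  have h4 : √x * √x = x := Real.mul_self_sqrt hx0.le
  rw [div_le_div_iff₀ (by norm_num) h3]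
  nlinarith

lemma tendsto_div_log : Tendsto (fun x : ℝ => x / Real.log x) atTop atTop := by
  have h1 : Tendsto (fun x : ℝ => √x / 2) atTop atTop :=
    Real.tendsto_sqrt_atTop.atTop_div_const (by norm_num)
  refine tendsto_atTop_mono' atTop ?_ h1
  filter_upwards [eventually_gt_atTop 1] with x hx
  exact div_log_ge hx

lemma tendsto_lognat : Tendsto (fun n : ℕ => Real.log n) atTop atTop :=
  Real.tendsto_log_atTop.comp tendsto_natCast_atTop_atTop

lemma tendsto_loglognat : Tendsto (fun n : ℕ => Real.log (Real.log n)) atTop atTop :=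
  Real.tendsto_log_atTop.comp tendsto_lognat

/-- the exponent `log n / log log n` -/
noncomputable def yy (n : ℕ) : ℝ := Real.log n / Real.log (Real.log n)

lemma tendsto_yy : Tendsto yy atTop atTop := tendsto_div_log.comp tendsto_lognat

lemma rpow_eq {n : ℕ} (hn : 0 < n) (c : ℝ) :
    (n : ℝ) ^ (c / Real.log (Real.log n)) = Real.exp (c * yy n) := by
  rw [Real.rpow_def_of_pos (by exact_mod_cast hn), yy]
  congr 1
  ring

lemma rpow_eq1 {n : ℕ} (hn : 0 < n) (c : ℝ) :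
    (n : ℝ) ^ (1 - c / Real.log (Real.log n)) = n * Real.exp (-(c * yy n)) := by
  have hn0 : (0 : ℝ) < n := by exact_mod_cast hn
  rw [Real.rpow_sub hn0, Real.rpow_one, rpow_eq hn, Real.exp_neg]
  rfl

/-- **Dense sets of squares.** -/
theorem squares (c κ : ℝ) (h : 4 * c + κ < Real.log (4 / 3)) :
    ∃ n₀ : ℕ, ∀ n : ℕ, n₀ ≤ n → ∀ S : Finset ℕ, (∀ s ∈ S, 1 ≤ s ∧ s ≤ n) →
      (n : ℝ) * Real.exp (-(c * yy n)) ≤ S.card →
      ∃ m, Real.exp (κ * yy n) ≤ rs S m := by
  have hl2 : 0 < Real.log 2 := Real.log_pos (by norm_num)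
  have hl43 : 0 < Real.log (4 / 3) := Real.log_pos (by norm_num)
  set θ : ℝ := Real.log (4 / 3) / Real.log 2 with hθ
  have hθ0 : 0 < θ := by positivity
  have hθ2 : θ * Real.log 2 = Real.log (4 / 3) := by rw [hθ]; field_simp
  obtain ⟨lam, hlam1, hlam2⟩ : ∃ lam : ℝ, max 0 ((4 * c + κ) / θ) < lam ∧ lam < Real.log 2 := by
    apply _root_.exists_between
    rw [max_lt_iff]
    refine ⟨hl2, ?_⟩
    rw [div_lt_iff₀ hθ0]
    linarith
  rw [max_lt_iff] at hlam1
  have hlam3 : 4 * c + κ < lam * θ := by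
    have := hlam1.2
    rw [div_lt_iff₀ hθ0] at this
    exact this
  obtain ⟨th, hth0, hth1, hev⟩ := Pool.Agent.Y821.DD.choose lam hlam1.1 hlam2
  have F1 := tendsto_lognat.eventually hev
  have F2 : ∀ᶠ n : ℕ in atTop, 3 / (lam * θ - (4 * c + κ)) ≤ yy n :=
    tendsto_yy.eventually_ge_atTop _
  obtain ⟨n₀, hn₀⟩ := eventually_atTop.1 (F1.and (F2.and (eventually_ge_atTop 4)))
  refine ⟨n₀, fun n hn S hS hcard => ?_⟩
  obtain ⟨⟨P, hP1, hP2, hP3⟩, f2, f4⟩ := hn₀ n hn
  by_contra hcon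
  push Not at hcon
  have hn0N : 0 < n := by omega
  have hn0 : (0 : ℝ) < n := by exact_mod_cast hn0N
  have hn1 : (1 : ℝ) ≤ n := by exact_mod_cast hn0N
  have hyn : Real.log n / Real.log (Real.log n) = yy n := rfl
  rw [hyn] at hP3
  -- product of the primes
  have hprod : ∏ p ∈ P, p ≤ n := by
    have h1 : Real.exp (th * Real.log n) ≤ n := by
      calc Real.exp (th * Real.log n) ≤ Real.exp (1 * Real.log n) := by
            apply Real.exp_le_exp.2
            exact mul_le_mul_of_nonneg_right hth1.le (Real.log_nonneg hn1)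
        _ = n := by rw [one_mul, Real.exp_log hn0]
    have h2 : (0 : ℝ) ≤ ∏ p ∈ P, (p : ℝ) := Finset.prod_nonneg fun p _ => by positivity
    have h3 : ∏ p ∈ P, (p : ℝ) ≤ n := by linarith
    have h4 : ((∏ p ∈ P, p : ℕ) : ℝ) ≤ n := by push_cast; exact h3
    exact_mod_cast h4
  have hcore := core P hP1 n hprod S hS (Real.exp (κ * yy n)) (fun m => (hcon m).le)
  have hD := prod_rpow P (fun p hp => (hP1 p hp).1)
  rw [← hθ] at hD
  set D1 : ℝ := ∏ p ∈ P, ((1 + 1 / (p : ℝ)) / 2) with hD1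
  have hD10 : 0 ≤ D1 := Finset.prod_nonneg fun p _ => by positivity
  have hD2 : D1 ≤ Real.exp (-(lam * yy n)) := by linarith
  have hD3 : D1 ^ θ ≤ Real.exp (-(lam * yy n) * θ) := by
    rw [Real.exp_mul]
    exact Real.rpow_le_rpow hD10 hD2 hθ0.le
  have hD4 := hD.trans hD3
  -- compare
  have hcard4 : ((n : ℝ) * Real.exp (-(c * yy n))) ^ 4 ≤ (S.card : ℝ) ^ 4 :=
    pow_le_pow_left₀ (by positivity) hcard 4
  have h1 : ((n : ℝ) * Real.exp (-(c * yy n))) ^ 4 ≤
      8 * (n : ℝ) ^ 4 * Real.exp (κ * yy n) * Real.exp (-(lam * yy n) * θ) :=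
    hcard4.trans (hcore.trans (mul_le_mul_of_nonneg_left hD4 (by positivity)))
  have h2 : ((n : ℝ) * Real.exp (-(c * yy n))) ^ 4 = (n : ℝ) ^ 4 * Real.exp (-(4 * c * yy n)) := by
    rw [mul_pow, ← Real.exp_nat_mul]
    congr 2
    push_cast
    ring
  have h3 : 8 * (n : ℝ) ^ 4 * Real.exp (κ * yy n) * Real.exp (-(lam * yy n) * θ) =
      (n : ℝ) ^ 4 * (8 * Real.exp (κ * yy n - lam * θ * yy n)) := by
    have : κ * yy n - lam * θ * yy n = κ * yy n + (-(lam * yy n) * θ) := by ring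
    rw [this, Real.exp_add]
    ring
  rw [h2, h3] at h1
  have h4 := le_of_mul_le_mul_left h1 (by positivity)
  have h8 : (8 : ℝ) < Real.exp 3 := by
    have h5 : Real.exp 3 = Real.exp 1 ^ 3 := by rw [← Real.exp_nat_mul]; norm_num
    rw [h5]
    have h6 : (2.7 : ℝ) < Real.exp 1 := by
      have := Real.exp_one_gt_d9
      linarith
    calc (8 : ℝ) < 2.7 ^ 3 := by norm_num
      _ ≤ _ := pow_le_pow_left₀ (by norm_num) h6.le 3
  have h5 : Real.exp (-(4 * c * yy n)) < Real.exp (3 + (κ * yy n - lam * θ * yy n)) := by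
    rw [Real.exp_add]
    exact h4.trans_lt (mul_lt_mul_of_pos_right h8 (Real.exp_pos _))
  rw [Real.exp_lt_exp] at h5
  rw [div_le_iff₀ (by linarith)] at f2
  nlinarith

end Pool.Agent.E8helper93.SQ
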