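import Pool.Agent.E8helper93.SQ.Iterate

/-!
# The counting inequality for sets of squares
-/

set_option autoImplicit false

namespace Pool.Agent.E8helper93.SQ

open Finset

/-- the divisor weight -/
noncomputable def hp (p m : ℕ) : ℝ :=
  1 / 2 + (p : ℝ) / 4 * ((if p ∣ m then 1 else 0) + (if p ^ 2 ∣ m then 1 else 0))

lemma hp_nonneg (p m : ℕ) : 0 ≤ hp p m := by
  unfold hp
  positivity

lemma kz_le {p : ℕ} (hpp : p.Prime) (h2 : p ≠ 2) {r : ZMod p} (hr : r ^ 2 = -1) (a b : ℕ) :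
    kz p r a b ≤ hp p (a ^ 2 + b ^ 2) := by
  have : Fact p.Prime := ⟨hpp⟩
  unfold kz hp
  apply add_le_add_right
  apply mul_le_mul_of_nonneg_left _ (by positivity)
  have hdiv : ∀ s : ZMod p, s ^ 2 = -1 → (a : ZMod p) = s * b → p ∣ a ^ 2 + b ^ 2 := by
    intro s hs h
    rw [← ZMod.natCast_eq_zero_iff]
    push_cast
    rw [h, mul_pow, hs]
    ring
  have hr' : (-r) ^ 2 = -1 := by rw [neg_sq]; exact hr
  by_cases h1 : (a : ZMod p) = r * b
  · by_cases h3 : (a : ZMod p) = -r * b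
    · -- both
      have hr0 : r ≠ 0 := by
        rintro rfl
        have h4 : (1 : ZMod p) = 0 := by linear_combination hr
        exact one_ne_zero h4
      have h20 : (2 : ZMod p) ≠ 0 := by
        intro h
        have : ((2 : ℕ) : ZMod p) = 0 := by exact_mod_cast h
        rw [ZMod.natCast_eq_zero_iff] at this
        exact h2 ((Nat.prime_dvd_prime_iff_eq hpp Nat.prime_two).1 this)
      have hb : (b : ZMod p) = 0 := by
        have h5 : (2 : ZMod p) * (r * b) = 0 := by linear_combination h3 - h1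
        rcases mul_eq_zero.1 h5 with h6 | h6
        · exact absurd h6 h20
        · rcases mul_eq_zero.1 h6 with h7 | h7
          · exact absurd h7 hr0
          · exact h7
      have ha : (a : ZMod p) = 0 := by rw [h1, hb, mul_zero]
      have hb' : p ∣ b := (ZMod.natCast_eq_zero_iff _ _).1 hb
      have ha' : p ∣ a := (ZMod.natCast_eq_zero_iff _ _).1 ha
      have hd2 : p ^ 2 ∣ a ^ 2 + b ^ 2 := dvd_add (pow_dvd_pow_of_dvd ha' 2) (pow_dvd_pow_of_dvd hb' 2)
      have hd1 : p ∣ a ^ 2 + b ^ 2 := (dvd_pow_self p two_ne_zero).trans hd2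
      rw [if_pos h1, if_pos h3, if_pos hd1, if_pos hd2]
    · rw [if_pos h1, if_neg h3, if_pos (hdiv r hr h1)]
      split_ifs <;> norm_num
  · by_cases h3 : (a : ZMod p) = -r * b
    · rw [if_neg h1, if_pos h3, if_pos (hdiv (-r) hr' h3)]
      split_ifs <;> norm_num
    · rw [if_neg h1, if_neg h3]
      split_ifs <;> norm_num

/-- `∑_{m ≤ M, d ∣ m} ∏ hp ≤ M / d ∏ (3/4 + 1/(4p))` -/
lemma sum_hp (M : ℕ) (P : Finset ℕ) (hP : ∀ p ∈ P, p.Prime) : ∀ d : ℕ, 0 < d → (∀ p ∈ P, Nat.Coprime d p) →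
    ∑ m ∈ (Icc 1 M).filter (fun m => d ∣ m), ∏ p ∈ P, hp p m ≤
      (M : ℝ) / d * ∏ p ∈ P, (3 / 4 + 1 / (4 * (p : ℝ))) := by
  induction P using Finset.induction_on with
  | empty =>
    intro d hd _
    simp only [Finset.prod_empty, Finset.sum_const, nsmul_eq_mul, mul_one]
    have h3 := Nat.Ioc_filter_dvd_card_eq_div M d
    have e : Icc 1 M = Ioc 0 M := by ext x; simp [Nat.succ_le_iff]
    rw [e, h3]
    exact Nat.cast_div_le
  | insert q P hq ih =>
    intro d hd hdP
    have ih' := ih (fun p hp => hP p (mem_insert_of_mem hp))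
    have hqp : q.Prime := hP q (mem_insert_self _ _)
    have hdq : Nat.Coprime d q := hdP q (mem_insert_self _ _)
    have hqP : ∀ p ∈ P, Nat.Coprime q p := by
      intro p hp
      rw [Nat.coprime_primes hqp (hP p (mem_insert_of_mem hp))]
      rintro rfl
      exact hq hp
    have hdP' : ∀ p ∈ P, Nat.Coprime d p := fun p hp => hdP p (mem_insert_of_mem hp)
    have i1 := ih' d hd hdP'
    have i2 := ih' (d * q) (Nat.mul_pos hd hqp.pos)
      (fun p hp => Nat.Coprime.mul_left (hdP' p hp) (hqP p hp))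
    have i3 := ih' (d * q ^ 2) (Nat.mul_pos hd (pow_pos hqp.pos 2))
      (fun p hp => Nat.Coprime.mul_left (hdP' p hp) ((hqP p hp).pow_left 2))
    have hqR : (0 : ℝ) < q := by exact_mod_cast hqp.pos
    have hdR : (0 : ℝ) < d := by exact_mod_cast hd
    have e : ∑ m ∈ (Icc 1 M).filter (fun m => d ∣ m), ∏ p ∈ insert q P, hp p m =
        1 / 2 * ∑ m ∈ (Icc 1 M).filter (fun m => d ∣ m), ∏ p ∈ P, hp p m +
        (q : ℝ) / 4 * ∑ m ∈ (Icc 1 M).filter (fun m => d * q ∣ m), ∏ p ∈ P, hp p m +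
        (q : ℝ) / 4 * ∑ m ∈ (Icc 1 M).filter (fun m => d * q ^ 2 ∣ m), ∏ p ∈ P, hp p m := by
      have f1 : (Icc 1 M).filter (fun m => d * q ∣ m) =
          ((Icc 1 M).filter (fun m => d ∣ m)).filter (fun m => q ∣ m) := by
        rw [Finset.filter_filter]
        apply Finset.filter_congr
        intro m _
        exact ⟨fun h => ⟨(dvd_mul_right d q).trans h, (dvd_mul_left q d).trans h⟩,
          fun h => hdq.mul_dvd_of_dvd_of_dvd h.1 h.2⟩
      have f2 : (Icc 1 M).filter (fun m => d * q ^ 2 ∣ m) =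
          ((Icc 1 M).filter (fun m => d ∣ m)).filter (fun m => q ^ 2 ∣ m) := by
        rw [Finset.filter_filter]
        apply Finset.filter_congr
        intro m _
        exact ⟨fun h => ⟨(dvd_mul_right d _).trans h, (dvd_mul_left _ d).trans h⟩,
          fun h => (hdq.pow_right 2).mul_dvd_of_dvd_of_dvd h.1 h.2⟩
      rw [f1, f2, Finset.sum_filter (fun m => q ∣ m), Finset.sum_filter (fun m => q ^ 2 ∣ m),
        Finset.mul_sum, Finset.mul_sum, Finset.mul_sum, ← Finset.sum_add_distrib,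
        ← Finset.sum_add_distrib]
      apply Finset.sum_congr rfl
      intro m _
      rw [Finset.prod_insert hq, hp]
      split_ifs <;> ring
    rw [e, Finset.prod_insert hq]
    set D : ℝ := ∏ p ∈ P, (3 / 4 + 1 / (4 * (p : ℝ))) with hD
    have j2 : (q : ℝ) / 4 * ∑ m ∈ (Icc 1 M).filter (fun m => d * q ∣ m), ∏ p ∈ P, hp p m ≤
        1 / 4 * ((M : ℝ) / d * D) := by
      refine (mul_le_mul_of_nonneg_left i2 (by positivity)).trans (le_of_eq ?_)
      push_cast
      field_simp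
    have j3 : (q : ℝ) / 4 * ∑ m ∈ (Icc 1 M).filter (fun m => d * q ^ 2 ∣ m), ∏ p ∈ P, hp p m ≤
        1 / (4 * q) * ((M : ℝ) / d * D) := by
      refine (mul_le_mul_of_nonneg_left i3 (by positivity)).trans (le_of_eq ?_)
      push_cast
      field_simp
    have e2 : (M : ℝ) / d * ((3 / 4 + 1 / (4 * (q : ℝ))) * D) =
        1 / 2 * ((M : ℝ) / d * D) + 1 / 4 * ((M : ℝ) / d * D) + 1 / (4 * q) * ((M : ℝ) / d * D) := by
      ring
    rw [e2]
    linarith

/-- the number of ordered pairs of `S` with sum of squares `m` -/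
def rs (S : Finset ℕ) (m : ℕ) : ℕ := ((S ×ˢ S).filter (fun x => x.1 ^ 2 + x.2 ^ 2 = m)).card

/-- **The counting inequality.** -/
theorem core (P : Finset ℕ) (hP : ∀ p ∈ P, p.Prime ∧ p % 4 = 1) (n : ℕ) (hn : ∏ p ∈ P, p ≤ n)
    (S : Finset ℕ) (hS : ∀ s ∈ S, 1 ≤ s ∧ s ≤ n) (R : ℝ) (hR : ∀ m, (rs S m : ℝ) ≤ R) :
    (S.card : ℝ) ^ 4 ≤ 8 * (n : ℝ) ^ 4 * R * ∏ p ∈ P, (3 / 4 + 1 / (4 * (p : ℝ))) := by
  classical
  have hroot : ∀ p ∈ P, ∃ r : ZMod p, r ^ 2 = -1 := by
    intro p hp
    obtain ⟨h1, h2⟩ := hP p hp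
    have : Fact p.Prime := ⟨h1⟩
    obtain ⟨r, hr⟩ := (ZMod.exists_sq_eq_neg_one_iff (p := p)).2 (by omega)
    exact ⟨r, by rw [sq]; exact hr.symm⟩
  choose! r hr using hroot
  obtain ⟨X, i1, i2, c, K, hK, hX, hKc, hc⟩ := exists_good P r (fun p hp => (hP p hp).1) hr
  set d := ∏ p ∈ P, p with hd
  have hd0 : 0 < d := Finset.prod_pos fun p hp => (hP p hp).1.pos
  have hn0 : 0 < n := hd0.trans_le hn
  have hdR : (0 : ℝ) < d := by exact_mod_cast hd0
  have hnR : (0 : ℝ) < n := by exact_mod_cast hn0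
  have hR0 : 0 ≤ R := le_trans (by positivity) (hR 0)
  -- class sizes
  set F : X → ℝ := fun x => ((S.filter (fun s => c s = x)).card : ℝ) with hF
  set L : ℝ := 2 * n / d with hL
  have hL0 : 0 < L := by positivity
  have hFL : ∀ x, F x ≤ L := by
    intro x
    by_cases hx : (S.filter (fun s => c s = x)).Nonempty
    · obtain ⟨v, hv⟩ := hx
      rw [mem_filter] at hv
      have hsub : S.filter (fun s => c s = x) ⊆ (Ioc 0 n).filter (fun j => j ≡ v [MOD d]) := by
        intro s hs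
        rw [mem_filter] at hs
        rw [mem_filter, mem_Ioc]
        exact ⟨⟨(hS s hs.1).1, (hS s hs.1).2⟩, hc s v (hs.2.trans hv.2.symm)⟩
      have h1 : ((S.filter (fun s => c s = x)).card : ℝ) ≤
          (((Ioc 0 n).filter (fun j => j ≡ v [MOD d])).card : ℝ) := by
        exact_mod_cast card_le_card hsub
      have h2 : (((Ioc 0 n).filter (fun j => j ≡ v [MOD d])).card : ℝ) ≤ (n : ℝ) / d + 1 := by
        have h := Nat.Ioc_filter_modEq_card 0 n hd0 v
        have h' : (((Ioc 0 n).filter (fun j => j ≡ v [MOD d])).card : ℚ) ≤ (n : ℚ) / d + 1 := by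
          have : ((((Ioc 0 n).filter (fun j => j ≡ v [MOD d])).card : ℤ) : ℚ) ≤ (n : ℚ) / d + 1 := by
            rw [h]
            push_cast
            apply max_le
            · have h1 := Int.floor_le (((n : ℚ) - v) / d)
              have h2 := Int.lt_floor_add_one (((0 : ℚ) - v) / d)
              have h3 : ((n : ℚ) - v) / d = n / d + (0 - v) / d := by ring
              rw [h3] at h1
              rw [h3]
              linarith
            · positivity
          exact_mod_cast this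
        have h2 : (((((Ioc 0 n).filter (fun j => j ≡ v [MOD d])).card : ℚ)) : ℝ) ≤
            (((n : ℚ) / d + 1 : ℚ) : ℝ) := Rat.cast_le.2 h'
        push_cast at h2
        exact h2
      have h3 : (1 : ℝ) ≤ (n : ℝ) / d := by
        rw [le_div_iff₀ hdR, one_mul]
        exact_mod_cast hn
      have h4 : L = (n : ℝ) / d + (n : ℝ) / d := by rw [hL]; ring
      rw [h4]
      exact h1.trans (h2.trans (by linarith))
    · rw [Finset.not_nonempty_iff_eq_empty] at hx
      simp only [hF, hx, card_empty, Nat.cast_zero]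
      exact hL0.le
  have hF0 : ∀ x, 0 ≤ F x := fun x => by simp only [hF]; positivity
  have hsumF : ∑ x, F x = (S.card : ℝ) := by
    simp only [hF]
    rw [← Nat.cast_sum]
    congr 1
    exact (Finset.card_eq_sum_card_fiberwise (f := c) (t := univ) (fun _ _ => by simp)).symm
  -- square roots
  have hsq : (S.card : ℝ) ≤ √L * ∑ x, √(F x) := by
    rw [← hsumF, Finset.mul_sum]
    apply Finset.sum_le_sum
    intro x _
    have h1 : F x = √(F x) * √(F x) := (Real.mul_self_sqrt (hF0 x)).symm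
    calc F x = √(F x) * √(F x) := h1
      _ ≤ √L * √(F x) := mul_le_mul_of_nonneg_right (Real.sqrt_le_sqrt (hFL x)) (Real.sqrt_nonneg _)
  have hgood := hK.2 (fun x => √(F x)) (fun x => √(F x)) (fun x => Real.sqrt_nonneg _)
    (fun x => Real.sqrt_nonneg _)
  -- expansion of the double sum
  have hexp : ∑ x, ∑ y, √(F x) ^ 2 * √(F y) ^ 2 * K x y = ∑ a ∈ S, ∑ b ∈ S, K (c a) (c b) := by
    have h1 : ∀ g : X → ℝ, ∑ a ∈ S, g (c a) = ∑ x, F x * g x := by
      intro g
      have h2 := Finset.sum_fiberwise_of_maps_to (s := S) (t := (univ : Finset X)) (g := c)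
        (fun _ _ => mem_univ _) (fun a => g (c a))
      rw [← h2]
      apply Finset.sum_congr rfl
      intro x _
      simp only [hF]
      rw [← nsmul_eq_mul, ← Finset.sum_const]
      apply Finset.sum_congr rfl
      intro a ha
      rw [mem_filter] at ha
      rw [ha.2]
    rw [h1 (fun x => ∑ b ∈ S, K x (c b))]
    apply Finset.sum_congr rfl
    intro x _
    rw [h1 (fun y => K x y), Finset.mul_sum]
    apply Finset.sum_congr rfl
    intro y _
    rw [Real.sq_sqrt (hF0 x), Real.sq_sqrt (hF0 y)]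
    ring
  -- the upper bound
  have hup : ∑ a ∈ S, ∑ b ∈ S, K (c a) (c b) ≤
      R * (2 * (n : ℝ) ^ 2 * ∏ p ∈ P, (3 / 4 + 1 / (4 * (p : ℝ)))) := by
    have h1 : ∀ a b, K (c a) (c b) ≤ ∏ p ∈ P, hp p (a ^ 2 + b ^ 2) := by
      intro a b
      rw [hKc]
      apply Finset.prod_le_prod
      · intro p _; exact kz_nonneg _ _ _ _
      · intro p hpP
        refine kz_le (hP p hpP).1 ?_ (hr p hpP) a b
        rintro rfl
        have := (hP 2 hpP).2
        omega
    have h2 : ∑ a ∈ S, ∑ b ∈ S, K (c a) (c b) ≤ ∑ x ∈ S ×ˢ S, ∏ p ∈ P, hp p (x.1 ^ 2 + x.2 ^ 2) := by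
      rw [Finset.sum_product]
      exact Finset.sum_le_sum fun a _ => Finset.sum_le_sum fun b _ => h1 a b
    have h3 : ∑ x ∈ S ×ˢ S, ∏ p ∈ P, hp p (x.1 ^ 2 + x.2 ^ 2) =
        ∑ m ∈ Icc 1 (2 * n ^ 2), (rs S m : ℝ) * ∏ p ∈ P, hp p m := by
      have h4 := Finset.sum_fiberwise_of_maps_to (s := S ×ˢ S) (t := Icc 1 (2 * n ^ 2))
        (g := fun x => x.1 ^ 2 + x.2 ^ 2) (fun x hx => by
          rw [mem_product] at hx
          rw [mem_Icc]
          have a1 := (hS _ hx.1)
          have a2 := (hS _ hx.2)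
          have a3 := Nat.pow_le_pow_left a1.2 2
          have a4 := Nat.pow_le_pow_left a2.2 2
          have a5 := Nat.pow_le_pow_left a1.1 2
          constructor
          · omega
          · omega) (fun x => ∏ p ∈ P, hp p (x.1 ^ 2 + x.2 ^ 2))
      rw [← h4]
      apply Finset.sum_congr rfl
      intro m _
      rw [rs, ← nsmul_eq_mul, ← Finset.sum_const]
      apply Finset.sum_congr rfl
      intro x hx
      rw [mem_filter] at hx
      rw [hx.2]
    refine h2.trans ?_
    rw [h3]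
    have h5 : ∑ m ∈ Icc 1 (2 * n ^ 2), (rs S m : ℝ) * ∏ p ∈ P, hp p m ≤
        R * ∑ m ∈ Icc 1 (2 * n ^ 2), ∏ p ∈ P, hp p m := by
      rw [Finset.mul_sum]
      apply Finset.sum_le_sum
      intro m _
      exact mul_le_mul_of_nonneg_right (hR m) (Finset.prod_nonneg fun p _ => hp_nonneg _ _)
    refine h5.trans (mul_le_mul_of_nonneg_left ?_ hR0)
    have h6 := sum_hp (2 * n ^ 2) P (fun p hp => (hP p hp).1) 1 one_pos (fun p _ => Nat.coprime_one_left p)
    simp only [one_dvd, Finset.filter_true, Nat.cast_one, div_one] at h6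
    push_cast at h6
    exact h6
  -- conclusion
  rw [hexp, hX] at hgood
  have hT0 : 0 ≤ ∑ x, √(F x) := Finset.sum_nonneg fun x _ => Real.sqrt_nonneg _
  have hLsq : √L ^ 2 = L := Real.sq_sqrt hL0.le
  calc (S.card : ℝ) ^ 4 ≤ (√L * ∑ x, √(F x)) ^ 4 := pow_le_pow_left₀ (by positivity) hsq 4
    _ = L ^ 2 * ((∑ x, √(F x)) ^ 2 * (∑ x, √(F x)) ^ 2) := by
        have e : (√L * ∑ x, √(F x)) ^ 4 = (√L ^ 2) ^ 2 * ((∑ x, √(F x)) ^ 2 * (∑ x, √(F x)) ^ 2) := by
          ring
        rw [e, hLsq]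
    _ ≤ L ^ 2 * ((d : ℝ) ^ 2 * (R * (2 * (n : ℝ) ^ 2 * ∏ p ∈ P, (3 / 4 + 1 / (4 * (p : ℝ)))))) := by
        apply mul_le_mul_of_nonneg_left _ (by positivity)
        exact hgood.trans (mul_le_mul_of_nonneg_left hup (by positivity))
    _ = _ := by
        rw [hL]
        field_simp
        ring

end Pool.Agent.E8helper93.SQ
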