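import Pool.Agent.E8helper93.SQ.Near

/-!
# Thresholds inside neighbourhoods of quadratic progressions
-/

set_option autoImplicit false

namespace Pool.Agent.E8helper93.SQ

open Filter Topology

/-- `rep A n` is the number of ordered pairs of elements of `A` with sum `n`. -/
noncomputable def rep (A : Set ℕ) (n : ℕ) : ℕ :=
  {p : ℕ × ℕ | p.1 ∈ A ∧ p.2 ∈ A ∧ p.1 + p.2 = n}.ncard

/-- `A ∩ [1, N]` is covered by at most `L` sets `{n : |n - α y²| ≤ L for some natural y}` with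
real numbers `α ≥ 1 / L`. -/
def Covered (A : Set ℕ) (N : ℕ) (L : ℝ) : Prop :=
  ∃ T : Finset ℝ, (T.card : ℝ) ≤ L ∧ (∀ α ∈ T, 1 / L ≤ α) ∧
    ∀ n ∈ A, 1 ≤ n → n ≤ N → ∃ α ∈ T, ∃ y : ℕ, |(n : ℝ) - α * (y : ℝ) ^ 2| ≤ L

theorem part_two (c : ℝ) (hc : c < Real.log (4 / 3) / 8) :
    ∃ ε : ℝ, 0 < ε ∧ ∃ N₀ : ℕ, ∀ N : ℕ, N₀ ≤ N → ∀ A : Set ℕ,
      Covered A N ((N : ℝ) ^ (ε / Real.log (Real.log N))) →
      (N : ℝ) ^ (1 / 2 - c / Real.log (Real.log N)) ≤ ((A ∩ Set.Icc 1 N).ncard : ℝ) →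
      ∃ m ≤ 2 * N, (N : ℝ) ^ (ε / Real.log (Real.log N)) ≤ rep A m := by
  have hl43 : 0 < Real.log (4 / 3) := Real.log_pos (by norm_num)
  obtain ⟨ε, hε, N₁, hN₁⟩ := near (max c 0) (le_max_right _ _) (by
    rcases le_total c 0 with h | h
    · rw [max_eq_right h]; linarith
    · rw [max_eq_left h]; linarith)
  have F : ∀ᶠ N : ℕ in atTop, 1 ≤ Real.log (Real.log N) := tendsto_loglognat.eventually_ge_atTop _
  obtain ⟨N₂, hN₂⟩ := eventually_atTop.1 F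
  refine ⟨ε, hε, max N₁ (max N₂ 1), fun N hN A hcov hdens => ?_⟩
  have h1 : N₁ ≤ N := (le_max_left _ _).trans hN
  have h2 : N₂ ≤ N := (le_max_left _ _).trans ((le_max_right _ _).trans hN)
  have h3 : 1 ≤ N := (le_max_right _ _).trans ((le_max_right _ _).trans hN)
  have hN0 : (0 : ℝ) < N := by exact_mod_cast h3
  have hN1 : (1 : ℝ) ≤ N := by exact_mod_cast h3
  have hll := hN₂ N h2
  rw [rpow_eq h3] at hcov ⊢
  obtain ⟨T, hT1, hT2, hT3⟩ := hcov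
  apply hN₁ N h1 A T hT1 hT2 hT3
  refine le_trans ?_ hdens
  rw [Real.rpow_sub hN0, rpow_eq h3, ← Real.sqrt_eq_rpow, Real.exp_neg, div_eq_mul_inv]
  apply mul_le_mul_of_nonneg_left _ (Real.sqrt_nonneg _)
  apply inv_anti₀ (Real.exp_pos _)
  apply Real.exp_le_exp.2
  apply mul_le_mul_of_nonneg_right (le_max_left _ _)
  unfold yy
  exact div_nonneg (Real.log_nonneg hN1) (by linarith)

theorem part_one (c κ : ℝ) (h : 4 * c + κ < Real.log (4 / 3)) :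
    ∃ n₀ : ℕ, ∀ n : ℕ, n₀ ≤ n → ∀ S : Finset ℕ,
      S ⊆ Finset.Icc 1 n → (n : ℝ) ^ (1 - c / Real.log (Real.log n)) ≤ S.card →
      ∃ m : ℕ, (n : ℝ) ^ (κ / Real.log (Real.log n)) ≤
        (((S ×ˢ S).filter (fun x => x.1 ^ 2 + x.2 ^ 2 = m)).card : ℝ) := by
  obtain ⟨n₀, hn₀⟩ := squares c κ h
  refine ⟨max n₀ 1, fun n hn S hS hcard => ?_⟩
  have h1 : n₀ ≤ n := (le_max_left _ _).trans hn
  have h3 : 1 ≤ n := (le_max_right _ _).trans hn
  rw [rpow_eq1 h3] at hcard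
  obtain ⟨m, hm⟩ := hn₀ n h1 S (fun s hs => Finset.mem_Icc.1 (hS hs)) hcard
  refine ⟨m, ?_⟩
  rw [rpow_eq h3]
  exact hm

/-- completing the square with a rational vertex -/
lemma complete (α β γ : ℝ) (r : ℚ) (hβ : β = r * α) :
    ∃ (q : ℕ) (p : ℤ), 0 < q ∧ ∀ y : ℤ, α * (y : ℝ) ^ 2 + β * y + γ =
      α / (q : ℝ) ^ 2 * (((q * y + p).natAbs : ℕ) : ℝ) ^ 2 + (γ - α * ((r : ℝ) / 2) ^ 2) := by
  refine ⟨(r / 2).den, (r / 2).num, (r / 2).den_pos, fun y => ?_⟩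
  have hq : (((r / 2).den : ℕ) : ℝ) ≠ 0 := by exact_mod_cast (r / 2).den_nz
  have h1 : (((r / 2).num : ℤ) : ℝ) = ((r : ℝ) / 2) * ((r / 2).den : ℕ) := by
    have h2 : ((r / 2 : ℚ) : ℝ) = ((r / 2).num : ℤ) / ((r / 2).den : ℕ) := by
      rw [Rat.cast_def]
    push_cast at h2
    rw [h2]
    field_simp
  have h3 : ((((((r / 2).den : ℕ) : ℤ) * y + (r / 2).num).natAbs : ℕ) : ℝ) ^ 2 =
      ((((r / 2).den : ℕ) : ℝ) * y + ((r / 2).num : ℤ)) ^ 2 := by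
    rw [Nat.cast_natAbs]
    push_cast
    rw [sq_abs]
  rw [h3, h1, hβ]
  field_simp
  ring

theorem part_three (c : ℝ) (hc : c < Real.log (4 / 3) / 8) (g : ℕ → ℝ)
    (hg : ∀ᶠ N : ℕ in atTop, 0 < g N ∧ g N ≤ (N : ℝ) ^ (c / Real.log (Real.log N)))
    (k : ℕ) (α β γ : Fin k → ℝ) (w : ℝ) (A : Set ℕ) (hα : ∀ i, 0 < α i)
    (hβ : ∀ i, ∃ r : ℚ, β i = r * α i)
    (hA : ∀ n ∈ A, ∃ i, ∃ y : ℤ, |(n : ℝ) - (α i * (y : ℝ) ^ 2 + β i * y + γ i)| ≤ w)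
    (hdens : ∃ C : ℝ, ∃ᶠ N : ℕ in atTop, √(N : ℝ) / g N ≤ C * ((A ∩ Set.Icc 1 N).ncard : ℝ)) :
    ∀ K : ℕ, ∃ m, K ≤ rep A m := by
  intro K
  obtain ⟨C, hC⟩ := hdens
  obtain ⟨c', hc'1, hc'2⟩ := _root_.exists_between hc
  obtain ⟨ε, hε, N₁, hN₁⟩ := part_two c' hc'2
  choose r hr using hβ
  have hcomp := fun i => complete (α i) (β i) (γ i) (r i) (hr i)
  choose q p hq hqp using hcomp
  -- a bound for all constants
  obtain ⟨D, hD⟩ : ∃ D : ℝ, D = K + k + |w| + ∑ i, |γ i - α i * ((r i : ℝ) / 2) ^ 2| +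
    ∑ i, (q i : ℝ) ^ 2 / α i := ⟨_, rfl⟩
  have hS1 : ∀ i, |γ i - α i * ((r i : ℝ) / 2) ^ 2| ≤ ∑ i, |γ i - α i * ((r i : ℝ) / 2) ^ 2| :=
    fun i => Finset.single_le_sum (f := fun i => |γ i - α i * ((r i : ℝ) / 2) ^ 2|)
      (fun j _ => abs_nonneg _) (Finset.mem_univ i)
  have hS2 : ∀ i, (q i : ℝ) ^ 2 / α i ≤ ∑ i, (q i : ℝ) ^ 2 / α i :=
    fun i => Finset.single_le_sum (f := fun i => (q i : ℝ) ^ 2 / α i)
      (fun j _ => div_nonneg (sq_nonneg _) (hα j).le) (Finset.mem_univ i)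
  have hS1' : 0 ≤ ∑ i, |γ i - α i * ((r i : ℝ) / 2) ^ 2| := Finset.sum_nonneg fun i _ => abs_nonneg _
  have hS2' : 0 ≤ ∑ i, (q i : ℝ) ^ 2 / α i :=
    Finset.sum_nonneg fun i _ => div_nonneg (sq_nonneg _) (hα i).le
  have hK0 : (0 : ℝ) ≤ K := by positivity
  have hk0 : (0 : ℝ) ≤ k := by positivity
  have hw0 := abs_nonneg w
  have hw1 := le_abs_self w
  -- eventual facts
  have F1 : ∀ᶠ N : ℕ in atTop, D + 1 ≤ Real.exp (ε * yy N) := by
    have h1 : Tendsto (fun N : ℕ => Real.exp (ε * yy N)) atTop atTop :=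
      Real.tendsto_exp_atTop.comp (tendsto_yy.const_mul_atTop hε)
    exact h1.eventually_ge_atTop _
  have F2 : ∀ᶠ N : ℕ in atTop, |C| + 1 ≤ Real.exp ((c' - c) * yy N) := by
    have h1 : Tendsto (fun N : ℕ => Real.exp ((c' - c) * yy N)) atTop atTop :=
      Real.tendsto_exp_atTop.comp (tendsto_yy.const_mul_atTop (by linarith))
    exact h1.eventually_ge_atTop _
  have F3 : ∀ᶠ N : ℕ in atTop, max N₁ 1 ≤ N := eventually_ge_atTop _
  obtain ⟨N, hCN, ⟨hg0, hgN⟩, f1, f2, f3⟩ := (hC.and_eventually (hg.and (F1.and (F2.and F3)))).exists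
  have hNN₁ : N₁ ≤ N := (le_max_left _ _).trans f3
  have hNpos : 0 < N := (le_max_right _ _).trans f3
  have hN0 : (0 : ℝ) < N := by exact_mod_cast hNpos
  obtain ⟨E, hE⟩ : ∃ E : ℝ, E = Real.exp (ε * yy N) := ⟨_, rfl⟩
  have hE0 : 0 < E := by rw [hE]; exact Real.exp_pos _
  rw [← hE] at f1
  have key := hN₁ N hNN₁ A
  rw [rpow_eq hNpos, ← hE] at key
  have hcov : Covered A N E := by
    classical
    refine ⟨Finset.univ.image (fun i => α i / (q i : ℝ) ^ 2), ?_, ?_, ?_⟩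
    · have h1 : ((Finset.univ.image (fun i => α i / (q i : ℝ) ^ 2)).card : ℝ) ≤ k := by
        have : (Finset.univ.image (fun i => α i / (q i : ℝ) ^ 2)).card ≤ k := by
          refine Finset.card_image_le.trans ?_
          simp
        exact_mod_cast this
      linarith
    · intro a ha
      rw [Finset.mem_image] at ha
      obtain ⟨i, _, rfl⟩ := ha
      have h1 : (q i : ℝ) ^ 2 / α i ≤ E := by
        have := hS2 i
        linarith
      have hqi : (0 : ℝ) < (q i : ℝ) ^ 2 := by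
        have : (0 : ℝ) < q i := by exact_mod_cast hq i
        positivity
      rw [div_le_iff₀ (hα i)] at h1
      rw [div_le_div_iff₀ hE0 hqi]
      linarith
    · intro n hn _ _
      obtain ⟨i, y, hy⟩ := hA n hn
      refine ⟨_, Finset.mem_image_of_mem _ (Finset.mem_univ i), ((q i : ℤ) * y + p i).natAbs, ?_⟩
      rw [hqp i y] at hy
      have h1 := hS1 i
      have h2 := abs_le.1 hy
      have h3 := abs_le.1 (le_refl |γ i - α i * ((r i : ℝ) / 2) ^ 2|)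
      rw [abs_le]
      constructor <;> linarith
  have hden : (N : ℝ) ^ (1 / 2 - c' / Real.log (Real.log N)) ≤ ((A ∩ Set.Icc 1 N).ncard : ℝ) := by
    have h1 : (N : ℝ) ^ (1 / 2 - c' / Real.log (Real.log N)) = √(N : ℝ) * Real.exp (-(c' * yy N)) := by
      rw [Real.rpow_sub hN0, rpow_eq hNpos, ← Real.sqrt_eq_rpow, Real.exp_neg, div_eq_mul_inv]
    rw [h1]
    rw [rpow_eq hNpos] at hgN
    have hcard0 : (0 : ℝ) ≤ ((A ∩ Set.Icc 1 N).ncard : ℝ) := by positivity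
    have h2 : √(N : ℝ) * Real.exp (-(c * yy N)) ≤ √(N : ℝ) / g N := by
      rw [div_eq_mul_inv, Real.exp_neg]
      exact mul_le_mul_of_nonneg_left (inv_anti₀ hg0 hgN) (Real.sqrt_nonneg _)
    have h3 : √(N : ℝ) * Real.exp (-(c * yy N)) ≤ (|C| + 1) * ((A ∩ Set.Icc 1 N).ncard : ℝ) := by
      refine h2.trans (hCN.trans (mul_le_mul_of_nonneg_right ?_ hcard0))
      linarith [le_abs_self C]
    have h4 : √(N : ℝ) * Real.exp (-(c * yy N)) ≤
        Real.exp ((c' - c) * yy N) * ((A ∩ Set.Icc 1 N).ncard : ℝ) :=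
      h3.trans (mul_le_mul_of_nonneg_right f2 hcard0)
    have h5 : Real.exp (-(c' * yy N)) = Real.exp (-(c * yy N)) * Real.exp (-((c' - c) * yy N)) := by
      rw [← Real.exp_add]; congr 1; ring
    rw [h5]
    have h6 : Real.exp ((c' - c) * yy N) * Real.exp (-((c' - c) * yy N)) = 1 := by
      rw [← Real.exp_add]; simp
    calc √(N : ℝ) * (Real.exp (-(c * yy N)) * Real.exp (-((c' - c) * yy N))) =
          (√(N : ℝ) * Real.exp (-(c * yy N))) * Real.exp (-((c' - c) * yy N)) := by ring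
      _ ≤ (Real.exp ((c' - c) * yy N) * ((A ∩ Set.Icc 1 N).ncard : ℝ)) * Real.exp (-((c' - c) * yy N)) :=
          mul_le_mul_of_nonneg_right h4 (Real.exp_pos _).le
      _ = ((A ∩ Set.Icc 1 N).ncard : ℝ) := by
          linear_combination ((A ∩ Set.Icc 1 N).ncard : ℝ) * h6
  obtain ⟨m, _, hm⟩ := key hcov hden
  refine ⟨m, ?_⟩
  have h1 : (K : ℝ) ≤ rep A m := by linarith
  exact_mod_cast h1

end Pool.Agent.E8helper93.SQ
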