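import Pool.Agent.E8helper93.SQ.Kernel

/-!
# The kernels attached to the square roots of minus one
-/

set_option autoImplicit false

namespace Pool.Agent.E8helper93.SQ

open Finset

/-- `1/2 + (p/4) (1[a = r b] + 1[a = - r b])` modulo `p` -/
noncomputable def kz (p : ℕ) (r : ZMod p) (a b : ℕ) : ℝ :=
  1 / 2 + (p : ℝ) / 4 * ((if (a : ZMod p) = r * b then 1 else 0) + (if (a : ZMod p) = -r * b then 1 else 0))

lemma kz_nonneg (p : ℕ) (r : ZMod p) (a b : ℕ) : 0 ≤ kz p r a b := by
  unfold kz
  positivity

/-- multiplication by `r` with `r² = -1` as a permutation -/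
noncomputable def mulEquiv {p : ℕ} (r : ZMod p) (hr : r ^ 2 = -1) : ZMod p ≃ ZMod p where
  toFun x := r * x
  invFun x := -r * x
  left_inv x := by
    change -r * (r * x) = x
    have : -r * (r * x) = -(r ^ 2) * x := by ring
    rw [this, hr]; ring
  right_inv x := by
    change r * (-r * x) = x
    have : r * (-r * x) = -(r ^ 2) * x := by ring
    rw [this, hr]; ring

/-- all primes of `P` at once -/
lemma exists_good (P : Finset ℕ) (r : (p : ℕ) → ZMod p) (hP : ∀ p ∈ P, p.Prime)
    (hr : ∀ p ∈ P, (r p) ^ 2 = -1) :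
    ∃ (X : Type) (_ : Fintype X) (_ : DecidableEq X) (c : ℕ → X) (K : X → X → ℝ),
      Good X K ∧ Fintype.card X = ∏ p ∈ P, p ∧
      (∀ a b, K (c a) (c b) = ∏ p ∈ P, kz p (r p) a b) ∧
      (∀ a b, c a = c b → a ≡ b [MOD ∏ p ∈ P, p]) := by
  induction P using Finset.induction_on with
  | empty =>
    refine ⟨Unit, inferInstance, inferInstance, fun _ => (), fun _ _ => 1, ⟨fun _ _ => zero_le_one, ?_⟩, ?_, ?_, ?_⟩
    · intro f g _ _
      simp only [Finset.univ_unique, Finset.sum_singleton, mul_one, Fintype.card_unit, Nat.cast_one,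
        one_pow, one_mul]
      exact le_refl _
    · simp
    · intro a b; simp
    · intro a b _
      simp only [Finset.prod_empty]
      exact Nat.modEq_one
  | insert q P hq ih =>
    obtain ⟨X, i1, i2, c, K, hK, hX, hKc, hc⟩ := ih (fun p hp => hP p (mem_insert_of_mem hp))
      (fun p hp => hr p (mem_insert_of_mem hp))
    have hqp : q.Prime := hP q (mem_insert_self _ _)
    have : Fact q.Prime := ⟨hqp⟩
    have hrq := hr q (mem_insert_self _ _)
    have hrq' : (-(r q)) ^ 2 = -1 := by rw [neg_sq]; exact hrq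
    have hg := good_single (mulEquiv (r q) hrq) (mulEquiv (-(r q)) hrq')
    refine ⟨ZMod q × X, inferInstance, inferInstance, fun a => ((a : ZMod q), c a), _,
      good_prod hg hK, ?_, ?_, ?_⟩
    · rw [Fintype.card_prod, hX, ZMod.card, Finset.prod_insert hq]
    · intro a b
      rw [Finset.prod_insert hq]
      simp only [hKc, ZMod.card]
      rfl
    · intro a b hab
      rw [Finset.prod_insert hq]
      have h1 : (a : ZMod q) = b := congrArg Prod.fst hab
      have h2 : c a = c b := congrArg Prod.snd hab
      have hcop : Nat.Coprime q (∏ p ∈ P, p) := by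
        apply Nat.Coprime.prod_right
        intro p hp
        rw [Nat.coprime_primes hqp (hP p (mem_insert_of_mem hp))]
        rintro rfl
        exact hq hp
      rw [← Nat.modEq_and_modEq_iff_modEq_mul hcop]
      exact ⟨(ZMod.natCast_eq_natCast_iff _ _ _).1 h1, hc a b h2⟩

end Pool.Agent.E8helper93.SQ
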