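import Mathlib

/-!
# A reverse Hölder inequality for product kernels
-/

set_option autoImplicit false

namespace Pool.Agent.E8helper93.SQ

open Finset

/-- `(E f)² (E g)² ≤ E [f(x)² g(y)² K(x, y)]` for all nonnegative `f`, `g` -/
def Good (X : Type) [Fintype X] (K : X → X → ℝ) : Prop :=
  (∀ x y, 0 ≤ K x y) ∧
  ∀ f g : X → ℝ, (∀ x, 0 ≤ f x) → (∀ x, 0 ≤ g x) →
    (∑ x, f x) ^ 2 * (∑ x, g x) ^ 2 ≤
      (Fintype.card X : ℝ) ^ 2 * ∑ x, ∑ y, f x ^ 2 * g y ^ 2 * K x y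

lemma real_ineq {a b U V c : ℝ} (_ha : 0 ≤ a) (_hb : 0 ≤ b) (hU : 0 ≤ U) (hV : 0 ≤ V)
    (hc : c ^ 2 ≤ U * V) : 2 * (a ^ 2 * b ^ 2) ≤ (a ^ 2 + U) * (b ^ 2 + V) + (a * b + c) ^ 2 := by
  have h1 : |2 * a * b * c| ≤ a ^ 2 * V + b ^ 2 * U := by
    apply abs_le_of_sq_le_sq
    · have h2 : (2 * a * b * c) ^ 2 = 4 * (a ^ 2 * b ^ 2) * c ^ 2 := by ring
      have h3 : 4 * (a ^ 2 * b ^ 2) * c ^ 2 ≤ 4 * (a ^ 2 * b ^ 2) * (U * V) :=
        mul_le_mul_of_nonneg_left hc (by positivity)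
      have h4 : 0 ≤ (a ^ 2 * V - b ^ 2 * U) ^ 2 := sq_nonneg _
      nlinarith
    · positivity
  have h2 := (abs_le.1 h1).1
  nlinarith [mul_nonneg hU hV, sq_nonneg c]

/-- one coordinate, identity -/
lemma single {X : Type} [Fintype X] [Nonempty X] (f g : X → ℝ) (hf : ∀ x, 0 ≤ f x) (hg : ∀ x, 0 ≤ g x) :
    (∑ x, f x) ^ 2 * (∑ x, g x) ^ 2 ≤
      (Fintype.card X : ℝ) ^ 2 * (1 / 2 * ((∑ x, f x ^ 2) * (∑ x, g x ^ 2)) +
        (Fintype.card X : ℝ) / 2 * ∑ x, f x ^ 2 * g x ^ 2) := by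
  set q : ℝ := (Fintype.card X : ℝ) with hq
  have hq0 : 0 < q := by rw [hq]; exact_mod_cast Fintype.card_pos
  set a : ℝ := (∑ x, f x) / q with ha
  set b : ℝ := (∑ x, g x) / q with hb
  have ha0 : 0 ≤ a := div_nonneg (Finset.sum_nonneg fun x _ => hf x) hq0.le
  have hb0 : 0 ≤ b := div_nonneg (Finset.sum_nonneg fun x _ => hg x) hq0.le
  have haq : ∑ x, f x = q * a := by rw [ha]; field_simp
  have hbq : ∑ x, g x = q * b := by rw [hb]; field_simp
  set U : ℝ := (∑ x, (f x - a) ^ 2) / q with hU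
  set V : ℝ := (∑ x, (g x - b) ^ 2) / q with hV
  set c : ℝ := (∑ x, (f x - a) * (g x - b)) / q with hc
  have hU0 : 0 ≤ U := div_nonneg (Finset.sum_nonneg fun x _ => sq_nonneg _) hq0.le
  have hV0 : 0 ≤ V := div_nonneg (Finset.sum_nonneg fun x _ => sq_nonneg _) hq0.le
  have hcUV : c ^ 2 ≤ U * V := by
    have := Finset.sum_mul_sq_le_sq_mul_sq univ (fun x => f x - a) (fun x => g x - b)
    rw [hc, hU, hV, div_pow, div_mul_div_comm, ← sq]
    exact div_le_div_of_nonneg_right this (by positivity)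
  have e1 : ∑ x, f x ^ 2 = q * (a ^ 2 + U) := by
    have h : ∑ x, (f x - a) ^ 2 = ∑ x, f x ^ 2 - 2 * a * ∑ x, f x + q * a ^ 2 := by
      simp only [sub_sq, Finset.sum_add_distrib, Finset.sum_sub_distrib]
      rw [← Finset.sum_mul, ← Finset.mul_sum]
      simp only [Finset.sum_const, Finset.card_univ, nsmul_eq_mul, ← hq]
      ring
    have h2 : q * U = ∑ x, (f x - a) ^ 2 := by rw [hU]; field_simp
    rw [mul_add, h2, h, haq]; ring
  have e2 : ∑ x, g x ^ 2 = q * (b ^ 2 + V) := by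
    have h : ∑ x, (g x - b) ^ 2 = ∑ x, g x ^ 2 - 2 * b * ∑ x, g x + q * b ^ 2 := by
      simp only [sub_sq, Finset.sum_add_distrib, Finset.sum_sub_distrib]
      rw [← Finset.sum_mul, ← Finset.mul_sum]
      simp only [Finset.sum_const, Finset.card_univ, nsmul_eq_mul, ← hq]
      ring
    have h2 : q * V = ∑ x, (g x - b) ^ 2 := by rw [hV]; field_simp
    rw [mul_add, h2, h, hbq]; ring
  have e3 : ∑ x, f x * g x = q * (a * b + c) := by
    have h : ∑ x, (f x - a) * (g x - b) = ∑ x, f x * g x - b * ∑ x, f x - a * ∑ x, g x + q * (a * b) := by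
      have : ∀ x, (f x - a) * (g x - b) = f x * g x - b * f x - a * g x + a * b := fun x => by ring
      simp only [this, Finset.sum_add_distrib, Finset.sum_sub_distrib]
      rw [← Finset.mul_sum, ← Finset.mul_sum]
      simp only [Finset.sum_const, Finset.card_univ, nsmul_eq_mul, ← hq]
    have h2 : q * c = ∑ x, (f x - a) * (g x - b) := by rw [hc]; field_simp
    rw [mul_add, h2, h, haq, hbq]; ring
  have e4 : (q * (a * b + c)) ^ 2 ≤ q * ∑ x, f x ^ 2 * g x ^ 2 := by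
    rw [← e3]
    have := sq_sum_le_card_mul_sum_sq (s := (univ : Finset X)) (f := fun x => f x * g x)
    rw [Finset.card_univ, ← hq] at this
    refine this.trans (le_of_eq ?_)
    congr 1
    apply Finset.sum_congr rfl
    intro x _
    ring
  have key := real_ineq ha0 hb0 hU0 hV0 hcUV
  rw [e1, e2, haq, hbq]
  have h5 : q ^ 2 * (1 / 2 * ((q * (a ^ 2 + U)) * (q * (b ^ 2 + V))) + 1 / 2 * (q * (a * b + c)) ^ 2) ≤
      q ^ 2 * (1 / 2 * ((q * (a ^ 2 + U)) * (q * (b ^ 2 + V))) + q / 2 * ∑ x, f x ^ 2 * g x ^ 2) := by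
    apply mul_le_mul_of_nonneg_left _ (by positivity)
    linarith
  refine le_trans ?_ h5
  have h6 : q ^ 2 * (1 / 2 * ((q * (a ^ 2 + U)) * (q * (b ^ 2 + V))) + 1 / 2 * (q * (a * b + c)) ^ 2) =
      q ^ 4 / 2 * ((a ^ 2 + U) * (b ^ 2 + V) + (a * b + c) ^ 2) := by ring
  rw [h6]
  have h7 : (q * a) ^ 2 * (q * b) ^ 2 = q ^ 4 / 2 * (2 * (a ^ 2 * b ^ 2)) := by ring
  rw [h7]
  exact mul_le_mul_of_nonneg_left key (by positivity)

/-- one coordinate, the average of two permutations -/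
lemma good_single {X : Type} [Fintype X] [DecidableEq X] [Nonempty X] (s t : X ≃ X) :
    Good X (fun x y => 1 / 2 + (Fintype.card X : ℝ) / 4 *
      ((if x = s y then 1 else 0) + (if x = t y then 1 else 0))) := by
  refine ⟨fun x y => by positivity, fun f g hf hg => ?_⟩
  set q : ℝ := (Fintype.card X : ℝ) with hq
  have h1 := single (fun x => f (s x)) g (fun x => hf _) hg
  have h2 := single (fun x => f (t x)) g (fun x => hf _) hg
  have s1 : ∑ x, f (s x) = ∑ x, f x := Equiv.sum_comp s f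
  have s2 : ∑ x, f (t x) = ∑ x, f x := Equiv.sum_comp t f
  have s3 : ∑ x, f (s x) ^ 2 = ∑ x, f x ^ 2 := Equiv.sum_comp s (fun x => f x ^ 2)
  have s4 : ∑ x, f (t x) ^ 2 = ∑ x, f x ^ 2 := Equiv.sum_comp t (fun x => f x ^ 2)
  rw [s1, s3, ← hq] at h1
  rw [s2, s4, ← hq] at h2
  have e : ∑ x, ∑ y, f x ^ 2 * g y ^ 2 * (1 / 2 + q / 4 *
      ((if x = s y then 1 else 0) + (if x = t y then 1 else 0))) =
      1 / 2 * ((∑ x, f x ^ 2) * (∑ x, g x ^ 2)) + q / 4 * (∑ x, f (s x) ^ 2 * g x ^ 2) +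
        q / 4 * (∑ x, f (t x) ^ 2 * g x ^ 2) := by
    rw [Finset.sum_comm]
    have h3 : ∀ y, ∑ x, f x ^ 2 * g y ^ 2 * (1 / 2 + q / 4 *
        ((if x = s y then 1 else 0) + (if x = t y then 1 else 0))) =
        1 / 2 * (∑ x, f x ^ 2) * g y ^ 2 + q / 4 * (f (s y) ^ 2 * g y ^ 2) +
          q / 4 * (f (t y) ^ 2 * g y ^ 2) := by
      intro y
      have h4 : ∀ x, f x ^ 2 * g y ^ 2 * (1 / 2 + q / 4 *
        ((if x = s y then 1 else 0) + (if x = t y then 1 else 0))) =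
        1 / 2 * f x ^ 2 * g y ^ 2 + (if x = s y then q / 4 * (f x ^ 2 * g y ^ 2) else 0) +
        (if x = t y then q / 4 * (f x ^ 2 * g y ^ 2) else 0) := by
        intro x
        split_ifs <;> ring
      simp only [h4, Finset.sum_add_distrib, Finset.sum_ite_eq', Finset.mem_univ, if_true]
      rw [← Finset.sum_mul, ← Finset.mul_sum]
    simp only [h3, Finset.sum_add_distrib]
    rw [← Finset.mul_sum, ← Finset.mul_sum, ← Finset.mul_sum]
    ring
  rw [e]
  linarith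

/-- products -/
lemma good_prod {X Y : Type} [Fintype X] [Fintype Y] {K : X → X → ℝ} {L : Y → Y → ℝ}
    (hK : Good X K) (hL : Good Y L) :
    Good (X × Y) (fun u v => K u.1 v.1 * L u.2 v.2) := by
  refine ⟨fun u v => mul_nonneg (hK.1 _ _) (hL.1 _ _), fun f g hf hg => ?_⟩
  have h1 := hK.2 (fun x => ∑ y, f (x, y)) (fun x => ∑ y, g (x, y))
    (fun x => Finset.sum_nonneg fun y _ => hf _) (fun x => Finset.sum_nonneg fun y _ => hg _)
  have e1 : ∑ x, ∑ y, f (x, y) = ∑ u, f u := (Fintype.sum_prod_type f).symm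
  have e2 : ∑ x, ∑ y, g (x, y) = ∑ u, g u := (Fintype.sum_prod_type g).symm
  rw [e1, e2] at h1
  refine h1.trans ?_
  have h2 : ∀ x x', (∑ y, f (x, y)) ^ 2 * (∑ y, g (x', y)) ^ 2 * K x x' ≤
      (Fintype.card Y : ℝ) ^ 2 * ∑ y, ∑ y', f (x, y) ^ 2 * g (x', y') ^ 2 * (K x x' * L y y') := by
    intro x x'
    have h3 := hL.2 (fun y => f (x, y)) (fun y => g (x', y)) (fun y => hf _) (fun y => hg _)
    have h4 := mul_le_mul_of_nonneg_right h3 (hK.1 x x')
    refine h4.trans (le_of_eq ?_)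
    rw [mul_assoc, Finset.sum_mul]
    congr 1
    apply Finset.sum_congr rfl
    intro y _
    rw [Finset.sum_mul]
    apply Finset.sum_congr rfl
    intro y' _
    ring
  have h5 : ∑ x, ∑ x', (∑ y, f (x, y)) ^ 2 * (∑ y, g (x', y)) ^ 2 * K x x' ≤
      ∑ x, ∑ x', (Fintype.card Y : ℝ) ^ 2 *
        ∑ y, ∑ y', f (x, y) ^ 2 * g (x', y') ^ 2 * (K x x' * L y y') :=
    Finset.sum_le_sum fun x _ => Finset.sum_le_sum fun x' _ => h2 x x'
  refine (mul_le_mul_of_nonneg_left h5 (by positivity)).trans (le_of_eq ?_)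
  rw [Fintype.card_prod]
  push_cast
  simp only [← Finset.mul_sum]
  rw [mul_pow, mul_assoc]
  congr 2
  rw [Fintype.sum_prod_type]
  apply Finset.sum_congr rfl
  intro x _
  rw [Finset.sum_comm]
  apply Finset.sum_congr rfl
  intro y _
  rw [Fintype.sum_prod_type]

end Pool.Agent.E8helper93.SQ
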