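import Pool.Agent.E8helper93.SQ.Asym

/-!
# Sets near scaled squares
-/

set_option autoImplicit false

namespace Pool.Agent.E8helper93.SQ

open Finset Filter Topology

/-- naturals within distance `w` of a point -/
lemma card_near {U : Finset ℕ} {x w : ℝ} (hw : 0 ≤ w) (h : ∀ u ∈ U, |(u : ℝ) - x| ≤ w) :
    (U.card : ℝ) ≤ 2 * w + 1 := by
  rcases U.eq_empty_or_nonempty with rfl | hne
  · simp; linarith
  · have h1 : U ⊆ Icc (U.min' hne) (U.max' hne) := fun u hu => by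
      rw [mem_Icc]
      exact ⟨Finset.min'_le _ _ hu, Finset.le_max' _ _ hu⟩
    have h2 := card_le_card h1
    rw [Nat.card_Icc] at h2
    have h3 := abs_le.1 (h _ (U.min'_mem hne))
    have h4 := abs_le.1 (h _ (U.max'_mem hne))
    have h5 : U.min' hne ≤ U.max' hne := Finset.min'_le _ _ (U.max'_mem hne)
    have h6 : (U.card : ℝ) ≤ (U.max' hne : ℝ) + 1 - U.min' hne := by
      have : U.card + U.min' hne ≤ U.max' hne + 1 := by omega
      have : (U.card : ℝ) + U.min' hne ≤ U.max' hne + 1 := by exact_mod_cast this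
      linarith
    linarith

/-- **Neighbourhoods of scaled squares.** -/
theorem near (c : ℝ) (hc0 : 0 ≤ c) (hc : 8 * c < Real.log (4 / 3)) :
    ∃ ε : ℝ, 0 < ε ∧ ∃ N₀ : ℕ, ∀ N : ℕ, N₀ ≤ N → ∀ (A : Set ℕ) (T : Finset ℝ),
      (T.card : ℝ) ≤ Real.exp (ε * yy N) →
      (∀ α ∈ T, 1 / Real.exp (ε * yy N) ≤ α) →
      (∀ n ∈ A, 1 ≤ n → n ≤ N → ∃ α ∈ T, ∃ y : ℕ, |(n : ℝ) - α * (y : ℝ) ^ 2| ≤ Real.exp (ε * yy N)) →
      √(N : ℝ) * Real.exp (-(c * yy N)) ≤ ((A ∩ Set.Icc 1 N).ncard : ℝ) →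
      ∃ m, m ≤ 2 * N ∧ Real.exp (ε * yy N) ≤
        ({p : ℕ × ℕ | p.1 ∈ A ∧ p.2 ∈ A ∧ p.1 + p.2 = m}.ncard : ℝ) := by
  classical
  obtain ⟨ε, hε⟩ : ∃ ε : ℝ, ε = (Real.log (4 / 3) - 8 * c) / 40 := ⟨_, rfl⟩
  have hε0 : 0 < ε := by rw [hε]; apply div_pos <;> linarith
  have h40 : 8 * c + 40 * ε = Real.log (4 / 3) := by rw [hε]; ring
  obtain ⟨n₁, hn₁⟩ := squares (2 * c + 8 * ε) (6 * ε) (by linarith)
  have F1 : ∀ᶠ N : ℕ in atTop, 5 / ε ≤ yy N := tendsto_yy.eventually_ge_atTop _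
  have F2 : ∀ᶠ N : ℕ in atTop, max 1 (4 * (c + 3 * ε)) ≤ Real.log (Real.log N) :=
    tendsto_loglognat.eventually_ge_atTop _
  obtain ⟨N₀, hN₀⟩ := eventually_atTop.1 (F1.and (F2.and (eventually_ge_atTop (max 16 (n₁ ^ 2)))))
  refine ⟨ε, hε0, N₀, fun N hN A T hT hTα hcov hdens => ?_⟩
  obtain ⟨f1, f2, f3⟩ := hN₀ N hN
  have hN16 : 16 ≤ N := (le_max_left _ _).trans f3
  have hNn₁ : n₁ ^ 2 ≤ N := (le_max_right _ _).trans f3
  have hNR : (16 : ℝ) ≤ N := by exact_mod_cast hN16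
  have hN0 : (0 : ℝ) < N := by linarith
  obtain ⟨y, hy⟩ : ∃ y : ℝ, y = yy N := ⟨_, rfl⟩
  obtain ⟨E, hE⟩ : ∃ E : ℝ, E = Real.exp (ε * y) := ⟨_, rfl⟩
  rw [← hy] at hT hTα hcov hdens f1 ⊢
  rw [← hE] at hT hTα hcov ⊢
  have hE0 : 0 < E := by rw [hE]; exact Real.exp_pos _
  have hy0 : 0 ≤ y := le_trans (by positivity) f1
  have hE100 : 100 ≤ E := by
    have h1 : 5 ≤ ε * y := by
      rw [div_le_iff₀ hε0] at f1
      linarith
    have h5 : Real.exp 5 = Real.exp 1 ^ 5 := by rw [← Real.exp_nat_mul]; norm_num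
    have h6 : (2.7 : ℝ) < Real.exp 1 := by
      have := Real.exp_one_gt_d9
      linarith
    calc (100 : ℝ) ≤ 2.7 ^ 5 := by norm_num
      _ ≤ Real.exp 1 ^ 5 := pow_le_pow_left₀ (by norm_num) h6.le 5
      _ = Real.exp 5 := h5.symm
      _ ≤ E := by rw [hE]; exact Real.exp_le_exp.2 h1
  have hE2a : 100 * E ≤ E ^ 2 := by
    rw [sq]; exact mul_le_mul_of_nonneg_right hE100 hE0.le
  have hE3a : 100 * E ^ 2 ≤ E ^ 3 := by
    have h1 : E ^ 3 = E * E ^ 2 := by ring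
    rw [h1]; exact mul_le_mul_of_nonneg_right hE100 (sq_nonneg E)
  -- the logarithms
  have hll1 : 1 ≤ Real.log (Real.log N) := (le_max_left _ _).trans f2
  have hll2 : 4 * (c + 3 * ε) ≤ Real.log (Real.log N) := (le_max_right _ _).trans f2
  have hlogN0 : 0 ≤ Real.log N := Real.log_nonneg (by linarith)
  have hylog : (c + 3 * ε) * y ≤ 1 / 4 * Real.log N := by
    have h1 : y * Real.log (Real.log N) = Real.log N := by
      rw [hy, yy]; field_simp
    have h2 : y * (4 * (c + 3 * ε)) ≤ y * Real.log (Real.log N) := mul_le_mul_of_nonneg_left hll2 hy0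
    linarith
  -- `exp (c y) E³ ≤ √N`
  have hsqrtN : √(N : ℝ) = Real.exp (1 / 2 * Real.log N) := by
    rw [Real.sqrt_eq_rpow, Real.rpow_def_of_pos hN0, mul_comm]
  have hE3 : Real.exp (c * y) * E ^ 3 ≤ √(N : ℝ) := by
    rw [hE, ← Real.exp_nat_mul, ← Real.exp_add, hsqrtN]
    apply Real.exp_le_exp.2
    push_cast
    linarith
  have hexpc : 1 ≤ Real.exp (c * y) := Real.one_le_exp (by positivity)
  have hE3' : E ^ 3 ≤ √(N : ℝ) := by
    have : E ^ 3 ≤ Real.exp (c * y) * E ^ 3 := le_mul_of_one_le_left (by positivity) hexpc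
    linarith
  obtain ⟨W, hW⟩ : ∃ W : ℝ, W = √(N : ℝ) * Real.exp (-(c * y)) := ⟨_, rfl⟩
  rw [← hW] at hdens
  have hW0 : 0 < W := by rw [hW]; positivity
  have hWE : E ^ 3 ≤ W := by
    have h1 : Real.exp (c * y) * Real.exp (-(c * y)) = 1 := by rw [← Real.exp_add]; simp
    calc E ^ 3 = (Real.exp (c * y) * E ^ 3) * Real.exp (-(c * y)) := by
          linear_combination (-(E ^ 3)) * h1
      _ ≤ √(N : ℝ) * Real.exp (-(c * y)) := mul_le_mul_of_nonneg_right hE3 (Real.exp_pos _).le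
      _ = W := hW.symm
  -- the set below N
  obtain ⟨A', hA'⟩ : ∃ A' : Finset ℕ, A' = (Icc 1 N).filter (fun n => n ∈ A) := ⟨_, rfl⟩
  have hA'card : (A ∩ Set.Icc 1 N).ncard = A'.card := by
    rw [← Set.ncard_coe_finset A']
    congr 1
    ext n
    rw [hA']
    simp only [Set.mem_inter_iff, Set.mem_Icc, coe_filter, mem_Icc, Set.mem_ofPred_eq]
    tauto
  rw [hA'card] at hdens
  have hA'pos : (0 : ℝ) < A'.card := hW0.trans_le hdens
  -- pigeonhole over T
  obtain ⟨B, hB⟩ : ∃ B : ℝ → Finset ℕ, B = fun α => A'.filter (fun n : ℕ => ∃ y : ℕ, |(n : ℝ) - α * (y : ℝ) ^ 2| ≤ E) :=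
    ⟨_, rfl⟩
  have hex : ∃ α ∈ T, (A'.card : ℝ) ≤ E * (B α).card := by
    by_contra hcon
    push Not at hcon
    have hTne : T.Nonempty := by
      by_contra hT0
      rw [Finset.not_nonempty_iff_eq_empty] at hT0
      have hpos : 0 < A'.card := by exact_mod_cast hA'pos
      obtain ⟨n, hn⟩ := Finset.card_pos.1 hpos
      rw [hA', mem_filter, mem_Icc] at hn
      obtain ⟨α, hα, _⟩ := hcov n hn.2 hn.1.1 hn.1.2
      rw [hT0] at hα
      exact absurd hα (Finset.notMem_empty _)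
    have hsub : A' ⊆ T.biUnion B := by
      intro n hn
      have hn' := hn
      rw [hA', mem_filter, mem_Icc] at hn'
      obtain ⟨α, hα, y, hy⟩ := hcov n hn'.2 hn'.1.1 hn'.1.2
      rw [mem_biUnion]
      refine ⟨α, hα, ?_⟩
      rw [hB]
      exact mem_filter.2 ⟨hn, y, hy⟩
    have h1 : (A'.card : ℝ) ≤ ∑ α ∈ T, ((B α).card : ℝ) := by
      exact_mod_cast (card_le_card hsub).trans card_biUnion_le
    have h2 : ∑ α ∈ T, E * ((B α).card : ℝ) < ∑ α ∈ T, (A'.card : ℝ) :=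
      Finset.sum_lt_sum_of_nonempty hTne hcon
    rw [← Finset.mul_sum, Finset.sum_const, nsmul_eq_mul] at h2
    have h3 : (T.card : ℝ) * A'.card ≤ E * A'.card := mul_le_mul_of_nonneg_right hT hA'pos.le
    have h4 : E * (A'.card : ℝ) ≤ E * ∑ α ∈ T, ((B α).card : ℝ) := mul_le_mul_of_nonneg_left h1 hE0.le
    linarith
  obtain ⟨α, hα, hBα⟩ := hex
  have hα1 := hTα α hα
  have hα0 : 0 < α := lt_of_lt_of_le (by positivity) hα1
  have hBmem : ∀ n ∈ B α, (n ∈ A ∧ 1 ≤ n ∧ n ≤ N) ∧ ∃ y : ℕ, |(n : ℝ) - α * (y : ℝ) ^ 2| ≤ E := by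
    intro n hn
    rw [hB] at hn
    have h1 := mem_filter.1 hn
    have h2 := h1.1
    rw [hA', mem_filter, mem_Icc] at h2
    exact ⟨⟨h2.2, h2.1⟩, h1.2⟩
  have hch : ∀ n ∈ B α, ∃ y : ℕ, |(n : ℝ) - α * (y : ℝ) ^ 2| ≤ E := fun n hn => (hBmem n hn).2
  choose! yf hyf using hch
  -- the set of roots
  obtain ⟨S0, hS0⟩ : ∃ S0 : Finset ℕ, S0 = (B α).image yf := ⟨_, rfl⟩
  have hfib : ((B α).card : ℝ) ≤ (2 * E + 1) * S0.card := by
    have h1 : (B α).card = ∑ s ∈ S0, ((B α).filter (fun n => yf n = s)).card :=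
      Finset.card_eq_sum_card_fiberwise (fun n hn => by rw [hS0]; exact mem_image_of_mem _ hn)
    rw [h1]
    push_cast
    have h2 : ∀ s ∈ S0, (((B α).filter (fun n => yf n = s)).card : ℝ) ≤ 2 * E + 1 := by
      intro s _
      apply card_near (x := α * (s : ℝ) ^ 2) hE0.le
      intro u hu
      rw [mem_filter] at hu
      have := hyf u hu.1
      rw [hu.2] at this
      exact this
    refine (Finset.sum_le_sum h2).trans (le_of_eq ?_)
    rw [Finset.sum_const, nsmul_eq_mul]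
    ring
  have hS0card : W ≤ 3 * E ^ 2 * S0.card := by
    have h1 : E * ((B α).card : ℝ) ≤ E * ((2 * E + 1) * S0.card) := mul_le_mul_of_nonneg_left hfib hE0.le
    have h2 : E * ((2 * E + 1) * (S0.card : ℝ)) ≤ 3 * E ^ 2 * S0.card := by
      have : (0 : ℝ) ≤ S0.card := by positivity
      have h3 : E * (2 * E + 1) ≤ 3 * E ^ 2 := by
        have : E * (2 * E + 1) = 2 * E ^ 2 + E := by ring
        linarith
      calc E * ((2 * E + 1) * (S0.card : ℝ)) = E * (2 * E + 1) * S0.card := by ring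
        _ ≤ _ := mul_le_mul_of_nonneg_right h3 this
    linarith
  obtain ⟨S, hS⟩ : ∃ S : Finset ℕ, S = S0.erase 0 := ⟨_, rfl⟩
  have hScard : (S0.card : ℝ) - 1 ≤ S.card := by
    have : S0.card - 1 ≤ S.card := by rw [hS]; exact Finset.pred_card_le_card_erase
    have : S0.card ≤ S.card + 1 := by omega
    have : (S0.card : ℝ) ≤ S.card + 1 := by exact_mod_cast this
    linarith
  -- the bound
  obtain ⟨n, hn⟩ : ∃ n : ℕ, n = ⌊√(2 * N * E)⌋₊ := ⟨_, rfl⟩
  have hnle : (n : ℝ) ≤ √(2 * N * E) := by rw [hn]; exact Nat.floor_le (Real.sqrt_nonneg _)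
  have hngt : √(2 * N * E) < n + 1 := by rw [hn]; exact Nat.lt_floor_add_one _
  have hEN : 2 * E ≤ N := by
    have h1 : √(N : ℝ) ≤ N := by
      rw [Real.sqrt_le_left hN0.le, sq]
      exact le_mul_of_one_le_right hN0.le (by linarith)
    linarith
  have hsqrt1 : √(N : ℝ) ≤ n := by
    have h1 : 2 * √(N : ℝ) ≤ √(2 * N * E) := by
      have h2 : 2 * √(N : ℝ) = √(4 * N) := by
        rw [Real.sqrt_mul (by norm_num), show (4 : ℝ) = 2 ^ 2 by norm_num, Real.sqrt_sq (by norm_num)]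
      rw [h2]
      apply Real.sqrt_le_sqrt
      have h4 : (N : ℝ) * 4 ≤ N * (2 * E) := mul_le_mul_of_nonneg_left (by linarith) hN0.le
      linarith
    have h3 : (1 : ℝ) ≤ √(N : ℝ) := by rw [Real.one_le_sqrt]; linarith
    linarith
  have hnN : (n : ℝ) ≤ N := by
    refine hnle.trans ?_
    rw [Real.sqrt_le_left hN0.le]
    have h4 : (N : ℝ) * (2 * E) ≤ N * N := mul_le_mul_of_nonneg_left hEN hN0.le
    have h5 : (N : ℝ) ^ 2 = N * N := sq _
    linarith
  have hn4 : (4 : ℝ) ≤ n := by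
    have h3 : (4 : ℝ) ≤ √(N : ℝ) := by
      apply Real.le_sqrt_of_sq_le
      linarith
    linarith
  have hn0 : (0 : ℝ) < n := by linarith
  have hnn₁ : n₁ ≤ n := by
    have h1 : (n₁ : ℝ) ≤ √(N : ℝ) := by
      apply Real.le_sqrt_of_sq_le
      exact_mod_cast hNn₁
    exact_mod_cast h1.trans hsqrt1
  have hlogn : 1 / 2 * Real.log N ≤ Real.log n := by
    have h1 := Real.log_le_log (Real.sqrt_pos.2 hN0) hsqrt1
    rw [Real.log_sqrt hN0.le] at h1
    linarith
  have hlogn1 : 1 < Real.log n := by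
    rw [Real.lt_log_iff_exp_lt hn0]
    have := Real.exp_one_lt_d9
    linarith
  have hlogn2 : Real.log n ≤ Real.log N := Real.log_le_log hn0 hnN
  have hyn : y / 2 ≤ yy n := by
    rw [hy, yy, yy, div_div, mul_comm, ← div_div, div_div]
    have h1 : 0 < Real.log (Real.log n) := Real.log_pos hlogn1
    have h2 : Real.log (Real.log n) ≤ Real.log (Real.log N) := Real.log_le_log (by linarith) hlogn2
    rw [div_le_div_iff₀ (by linarith) h1]
    have h3 : Real.log N * Real.log (Real.log n) ≤ Real.log N * Real.log (Real.log N) :=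
      mul_le_mul_of_nonneg_left h2 hlogN0
    have h4 : 1 / 2 * Real.log N * Real.log (Real.log N) ≤ Real.log n * Real.log (Real.log N) :=
      mul_le_mul_of_nonneg_right hlogn (by linarith)
    linarith
  have hSn : ∀ s ∈ S, 1 ≤ s ∧ s ≤ n := by
    intro s hs
    rw [hS, mem_erase] at hs
    refine ⟨Nat.one_le_iff_ne_zero.2 hs.1, ?_⟩
    have hs2 := hs.2
    rw [hS0, mem_image] at hs2
    obtain ⟨u, hu, rfl⟩ := hs2
    have h1 := abs_le.1 (hyf u hu)
    have h2 : (u : ℝ) ≤ N := by exact_mod_cast (hBmem u hu).1.2.2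
    have h3 : α * (yf u : ℝ) ^ 2 ≤ N + E := by linarith
    have h4 : (yf u : ℝ) ^ 2 ≤ 2 * N * E := by
      have h5 : (yf u : ℝ) ^ 2 ≤ E * (α * (yf u : ℝ) ^ 2) := by
        have h6 : 1 ≤ E * α := by
          rw [div_le_iff₀ hE0] at hα1
          linarith
        calc (yf u : ℝ) ^ 2 = 1 * (yf u : ℝ) ^ 2 := (one_mul _).symm
          _ ≤ (E * α) * (yf u : ℝ) ^ 2 := mul_le_mul_of_nonneg_right h6 (by positivity)
          _ = _ := by ring
      have h7 : E * (α * (yf u : ℝ) ^ 2) ≤ E * (N + E) := mul_le_mul_of_nonneg_left h3 hE0.le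
      have h8 : E * ((N : ℝ) + E) ≤ E * (2 * N) := mul_le_mul_of_nonneg_left (by linarith) hE0.le
      linarith
    rw [hn]
    apply Nat.le_floor
    exact Real.le_sqrt_of_sq_le h4
  have hdenS : (n : ℝ) * Real.exp (-((2 * c + 8 * ε) * yy n)) ≤ S.card := by
    have h1 : Real.exp (-((2 * c + 8 * ε) * yy n)) ≤ Real.exp (-(c * y)) * (1 / E ^ 4) := by
      have h2 : (1 : ℝ) / E ^ 4 = Real.exp (-(4 * (ε * y))) := by
        rw [hE, ← Real.exp_nat_mul, Real.exp_neg, one_div]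
        push_cast
        rfl
      rw [h2, ← Real.exp_add]
      apply Real.exp_le_exp.2
      have : (2 * c + 8 * ε) * (y / 2) ≤ (2 * c + 8 * ε) * yy n :=
        mul_le_mul_of_nonneg_left hyn (by linarith)
      linarith
    have h2 : √(2 * N * E) ≤ √(N : ℝ) * E := by
      have h3 : √(N : ℝ) * E = √(N * E ^ 2) := by
        rw [Real.sqrt_mul hN0.le, Real.sqrt_sq hE0.le]
      rw [h3]
      apply Real.sqrt_le_sqrt
      have h4 : (N : ℝ) * (2 * E) ≤ N * E ^ 2 := by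
        apply mul_le_mul_of_nonneg_left _ hN0.le
        rw [sq]
        exact mul_le_mul_of_nonneg_right (by linarith) hE0.le
      linarith
    have h3 : (n : ℝ) * Real.exp (-((2 * c + 8 * ε) * yy n)) ≤ W / E ^ 3 := by
      calc (n : ℝ) * Real.exp (-((2 * c + 8 * ε) * yy n)) ≤
            (√(N : ℝ) * E) * (Real.exp (-(c * y)) * (1 / E ^ 4)) :=
            mul_le_mul (hnle.trans h2) h1 (Real.exp_pos _).le (by positivity)
        _ = W / E ^ 3 := by rw [hW]; field_simp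
    have h4 : W / E ^ 3 ≤ W / (6 * E ^ 2) := by
      apply div_le_div_of_nonneg_left hW0.le (by positivity)
      have := sq_nonneg E
      linarith
    have h5 : 1 ≤ W / (6 * E ^ 2) := by
      rw [le_div_iff₀ (by positivity)]
      have := sq_nonneg E
      linarith
    have h6 : W / (3 * E ^ 2) ≤ S0.card := by
      rw [div_le_iff₀ (by positivity)]
      linarith
    have h7 : W / (3 * E ^ 2) = W / (6 * E ^ 2) + W / (6 * E ^ 2) := by
      field_simp
      norm_num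
    linarith
  obtain ⟨m, hm⟩ := hn₁ n hnn₁ S hSn hdenS
  -- the section
  have hsec : ∀ s ∈ S, ∃ u ∈ B α, yf u = s := by
    intro s hs
    rw [hS, mem_erase] at hs
    have hs2 := hs.2
    rw [hS0, mem_image] at hs2
    exact hs2
  choose! nn hnn1 hnn2 using hsec
  obtain ⟨Q, hQ⟩ : ∃ Q : Finset (ℕ × ℕ), Q = (S ×ˢ S).filter (fun x => x.1 ^ 2 + x.2 ^ 2 = m) := ⟨_, rfl⟩
  have hQcard : E ^ 3 ≤ Q.card := by
    have h1 : Real.exp (6 * ε * yy n) ≤ Q.card := by
      rw [hQ]; exact hm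
    refine le_trans ?_ h1
    rw [hE, ← Real.exp_nat_mul]
    apply Real.exp_le_exp.2
    push_cast
    have := mul_le_mul_of_nonneg_left hyn (show (0 : ℝ) ≤ 6 * ε by linarith)
    linarith
  obtain ⟨σ, hσ⟩ : ∃ σ : ℕ × ℕ → ℕ, σ = fun x => nn x.1 + nn x.2 := ⟨_, rfl⟩
  obtain ⟨V, hV⟩ : ∃ V : Finset ℕ, V = Q.image σ := ⟨_, rfl⟩
  have hVcard : (V.card : ℝ) ≤ 2 * (2 * E) + 1 := by
    apply card_near (x := α * (m : ℝ)) (by linarith)
    intro v hv
    rw [hV, mem_image] at hv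
    obtain ⟨x, hx, rfl⟩ := hv
    rw [hQ, mem_filter, mem_product] at hx
    have a1 := abs_le.1 (hyf _ (hnn1 _ hx.1.1))
    have a2 := abs_le.1 (hyf _ (hnn1 _ hx.1.2))
    rw [hnn2 _ hx.1.1] at a1
    rw [hnn2 _ hx.1.2] at a2
    have a3 : (m : ℝ) = (x.1 : ℝ) ^ 2 + (x.2 : ℝ) ^ 2 := by
      rw [← hx.2]; push_cast; rfl
    rw [hσ, a3, abs_le]
    push_cast
    constructor <;> linarith
  have hexv : ∃ v ∈ V, E ≤ ((Q.filter (fun x => σ x = v)).card : ℝ) := by
    by_contra hcon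
    push Not at hcon
    have h1 : Q.card = ∑ v ∈ V, (Q.filter (fun x => σ x = v)).card :=
      Finset.card_eq_sum_card_fiberwise (fun x hx => by rw [hV]; exact mem_image_of_mem _ hx)
    have h2 : (Q.card : ℝ) ≤ ∑ v ∈ V, E := by
      rw [h1]
      push_cast
      exact Finset.sum_le_sum fun v hv => (hcon v hv).le
    rw [Finset.sum_const, nsmul_eq_mul] at h2
    have h3 : (V.card : ℝ) * E ≤ (2 * (2 * E) + 1) * E := mul_le_mul_of_nonneg_right hVcard hE0.le
    have h4 : (2 * (2 * E) + 1) * E < E ^ 3 := by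
      have h5 : (2 * (2 * E) + 1) * E = 4 * E ^ 2 + E := by ring
      have h6 : 0 < E ^ 2 := by positivity
      linarith
    linarith
  obtain ⟨v, hv, hvE⟩ := hexv
  refine ⟨v, ?_, ?_⟩
  · rw [hV, mem_image] at hv
    obtain ⟨x, hx, rfl⟩ := hv
    rw [hQ, mem_filter, mem_product] at hx
    have a1 := (hBmem _ (hnn1 _ hx.1.1)).1.2.2
    have a2 := (hBmem _ (hnn1 _ hx.1.2)).1.2.2
    rw [hσ]
    simp only
    omega
  · refine hvE.trans ?_
    have hfin : {p : ℕ × ℕ | p.1 ∈ A ∧ p.2 ∈ A ∧ p.1 + p.2 = v}.Finite := by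
      apply Set.Finite.subset (Finset.finite_toSet (Icc 0 v ×ˢ Icc 0 v))
      rintro ⟨p, q⟩ ⟨_, _, h⟩
      simp only [coe_product, coe_Icc, Set.mem_prod, Set.mem_Icc]
      simp only at h
      omega
    have h1 : (Q.filter (fun x => σ x = v)).card ≤
        {p : ℕ × ℕ | p.1 ∈ A ∧ p.2 ∈ A ∧ p.1 + p.2 = v}.ncard := by
      rw [← Set.ncard_coe_finset]
      apply Set.ncard_le_ncard_of_injOn (fun x : ℕ × ℕ => (nn x.1, nn x.2)) _ _ hfin
      · intro x hx
        rw [mem_coe, mem_filter, hQ, mem_filter, mem_product] at hx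
        refine ⟨(hBmem _ (hnn1 _ hx.1.1.1)).1.1, (hBmem _ (hnn1 _ hx.1.1.2)).1.1, ?_⟩
        have := hx.2
        rw [hσ] at this
        exact this
      · intro x hx z hz hxz
        rw [mem_coe, mem_filter, hQ, mem_filter, mem_product] at hx hz
        simp only [Prod.mk.injEq] at hxz
        have b1 := congrArg yf hxz.1
        have b2 := congrArg yf hxz.2
        rw [hnn2 _ hx.1.1.1, hnn2 _ hz.1.1.1] at b1
        rw [hnn2 _ hx.1.1.2, hnn2 _ hz.1.1.2] at b2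
        exact Prod.ext b1 b2
    exact_mod_cast h1

end Pool.Agent.E8helper93.SQ
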