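import Pool.Agent.E8helper93.SQ.Final

/-!
# The question may be restricted to sets which are thin on quadratic progressions
-/

set_option autoImplicit false

namespace Pool.Agent.E8helper93.SQ

open Filter Topology

/-- `g` forces unbounded representations inside the class `P`. -/
def ForcesIn (P : Set ℕ → Prop) (g : ℕ → ℝ) : Prop :=
  ∀ A : Set ℕ, P A →
    (∃ C : ℝ, 0 < C ∧ ∀ᶠ N : ℕ in atTop, √(N : ℝ) / g N ≤ C * ((A ∩ Set.Icc 1 N).ncard : ℝ)) →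
    ∀ K : ℕ, ∃ m, K ≤ rep A m

/-- `A` has only finitely many elements in every bounded neighbourhood of a quadratic progression
with rational coefficients. -/
def ThinOnQuadratics (A : Set ℕ) : Prop :=
  ∀ α β γ w : ℚ, 0 < α →
    {n ∈ A | ∃ y : ℤ, |(n : ℝ) - ((α : ℝ) * (y : ℝ) ^ 2 + β * y + γ)| ≤ w}.Finite

lemma rep_mono {A B : Set ℕ} (h : A ⊆ B) (m : ℕ) : rep A m ≤ rep B m := by
  unfold rep
  apply Set.ncard_le_ncard
  · rintro p ⟨h1, h2, h3⟩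
    exact ⟨h h1, h h2, h3⟩
  · apply Set.Finite.subset (Finset.finite_toSet (Finset.Icc 0 m ×ˢ Finset.Icc 0 m))
    rintro ⟨p, q⟩ ⟨_, _, h⟩
    simp only [Finset.coe_product, Finset.coe_Icc, Set.mem_prod, Set.mem_Icc]
    simp only at h
    omega

/-- the elements near one progression -/
def nq (q : ℚ × ℚ × ℚ × ℚ) : Set ℕ :=
  {n | ∃ y : ℤ, |(n : ℝ) - ((q.1 : ℝ) * (y : ℝ) ^ 2 + q.2.1 * y + q.2.2.1)| ≤ q.2.2.2}

/-- bounded representations: few elements near every progression -/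
lemma few (c : ℝ) (hc : c < Real.log (4 / 3) / 8) (g : ℕ → ℝ)
    (hg : ∀ᶠ N : ℕ in atTop, 0 < g N ∧ g N ≤ (N : ℝ) ^ (c / Real.log (Real.log N)))
    (A : Set ℕ) (K : ℕ) (hK : ∀ m, rep A m < K) (q : ℚ × ℚ × ℚ × ℚ) (hq : 0 < q.1)
    (ε : ℝ) (hε : 0 < ε) :
    ∀ᶠ N : ℕ in atTop, ((A ∩ nq q ∩ Set.Icc 1 N).ncard : ℝ) ≤ ε * (√(N : ℝ) / g N) := by
  by_contra hcon
  rw [not_eventually] at hcon
  have h1 : ∃ C : ℝ, ∃ᶠ N : ℕ in atTop,
      √(N : ℝ) / g N ≤ C * (((A ∩ nq q) ∩ Set.Icc 1 N).ncard : ℝ) := by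
    refine ⟨1 / ε, hcon.mono fun N hN => ?_⟩
    push Not at hN
    rw [one_div, inv_mul_eq_div, le_div_iff₀ hε]
    linarith
  obtain ⟨m, hm⟩ := part_three c hc g hg 1 (fun _ => (q.1 : ℝ)) (fun _ => (q.2.1 : ℝ))
    (fun _ => (q.2.2.1 : ℝ)) (q.2.2.2 : ℝ) (A ∩ nq q) (fun _ => by exact_mod_cast hq)
    (fun _ => ⟨q.2.1 / q.1, by
      have : (q.1 : ℝ) ≠ 0 := by exact_mod_cast hq.ne'
      push_cast
      field_simp⟩)
    (fun n hn => ⟨0, hn.2⟩) h1 K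
  exact absurd (hm.trans (rep_mono Set.inter_subset_left m)) (not_le.2 (hK m))

theorem reduce (c : ℝ) (hc : c < Real.log (4 / 3) / 8) (g : ℕ → ℝ)
    (hg : ∀ᶠ N : ℕ in atTop, 0 < g N ∧ g N ≤ (N : ℝ) ^ (c / Real.log (Real.log N)))
    (h : ForcesIn ThinOnQuadratics g) : ForcesIn (fun _ => True) g := by
  classical
  rintro A - ⟨C, hC0, hC⟩
  by_contra hcon
  push Not at hcon
  obtain ⟨K, hK⟩ := hcon
  -- enumeration
  have : Nonempty {q : ℚ × ℚ × ℚ × ℚ // 0 < q.1} := ⟨⟨(1, 0, 0, 0), by norm_num⟩⟩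
  obtain ⟨e, he⟩ := exists_surjective_nat {q : ℚ × ℚ × ℚ × ℚ // 0 < q.1}
  obtain ⟨N₀, hN₀⟩ := eventually_atTop.1 hC
  have hx : ∀ i : ℕ, ∃ x : ℕ, i ≤ x ∧ N₀ ≤ x ∧ ∀ N : ℕ, x ≤ N →
      ((A ∩ nq (e i).1 ∩ Set.Icc 1 N).ncard : ℝ) ≤ (1 / 2) ^ (i + 2) * ((A ∩ Set.Icc 1 N).ncard : ℝ) := by
    intro i
    have h1 := few c hc g hg A K hK (e i).1 (e i).2 ((1 / 2) ^ (i + 2) / C) (by positivity)
    obtain ⟨x, hx⟩ := eventually_atTop.1 h1
    refine ⟨max x (max i N₀), (le_max_left _ _).trans (le_max_right _ _),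
      (le_max_right _ _).trans (le_max_right _ _), fun N hN => ?_⟩
    refine (hx N ((le_max_left _ _).trans hN)).trans ?_
    have h2 := hN₀ N (((le_max_right _ _).trans (le_max_right _ _)).trans hN)
    have h3 : (1 / 2 : ℝ) ^ (i + 2) / C * (√(N : ℝ) / g N) ≤
        (1 / 2) ^ (i + 2) / C * (C * ((A ∩ Set.Icc 1 N).ncard : ℝ)) :=
      mul_le_mul_of_nonneg_left h2 (by positivity)
    refine h3.trans (le_of_eq ?_)
    field_simp
  choose x hxi hxN hx using hx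
  obtain ⟨B, hB⟩ : ∃ B : Set ℕ, B = {n ∈ A | ∀ i, n ∈ nq (e i).1 → n < x i} := ⟨_, rfl⟩
  have hBA : B ⊆ A := by rw [hB]; exact fun n hn => hn.1
  have hfin : ∀ (S : Set ℕ) (N : ℕ), (S ∩ Set.Icc 1 N).Finite := fun S N =>
    (Set.finite_Icc 1 N).subset Set.inter_subset_right
  -- density of `B`
  have hdens : ∀ N : ℕ, ((A ∩ Set.Icc 1 N).ncard : ℝ) ≤ 2 * ((B ∩ Set.Icc 1 N).ncard : ℝ) := by
    intro N
    obtain ⟨I, hI⟩ : ∃ I : Finset ℕ, I = (Finset.range (N + 1)).filter (fun i => x i ≤ N) := ⟨_, rfl⟩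
    have hsub : A ∩ Set.Icc 1 N ⊆ (B ∩ Set.Icc 1 N) ∪ ⋃ i ∈ I, (A ∩ nq (e i).1 ∩ Set.Icc 1 N) := by
      rintro n ⟨hn1, hn2⟩
      by_cases hnB : n ∈ B
      · exact Or.inl ⟨hnB, hn2⟩
      · right
        rw [hB] at hnB
        simp only [Set.mem_ofPred_eq, not_and, not_forall, not_lt] at hnB
        obtain ⟨i, hi1, hi2⟩ := hnB hn1
        have h1 : x i ≤ N := hi2.trans hn2.2
        simp only [Set.mem_iUnion]
        refine ⟨i, ?_, ⟨hn1, hi1⟩, hn2⟩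
        rw [hI, Finset.mem_filter, Finset.mem_range]
        have := hxi i
        omega
    have h1 : (A ∩ Set.Icc 1 N).ncard ≤ (B ∩ Set.Icc 1 N).ncard +
        (⋃ i ∈ I, (A ∩ nq (e i).1 ∩ Set.Icc 1 N)).ncard := by
      refine (Set.ncard_le_ncard hsub ?_).trans (Set.ncard_union_le _ _)
      refine (hfin B N).union ?_
      exact (Set.finite_Icc 1 N).subset (Set.iUnion₂_subset fun i _ => Set.inter_subset_right)
    have h2 : (⋃ i ∈ I, (A ∩ nq (e i).1 ∩ Set.Icc 1 N)).ncard ≤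
        ∑ i ∈ I, (A ∩ nq (e i).1 ∩ Set.Icc 1 N).ncard := Finset.set_ncard_biUnion_le _ _
    have h3 : (∑ i ∈ I, ((A ∩ nq (e i).1 ∩ Set.Icc 1 N).ncard : ℝ)) ≤
        ∑ i ∈ I, (1 / 2 : ℝ) ^ (i + 2) * ((A ∩ Set.Icc 1 N).ncard : ℝ) := by
      apply Finset.sum_le_sum
      intro i hi
      rw [hI, Finset.mem_filter] at hi
      exact hx i N hi.2
    have h4 : ∑ i ∈ I, (1 / 2 : ℝ) ^ (i + 2) ≤ 1 / 2 := by
      have h5 : ∑ i ∈ I, (1 / 2 : ℝ) ^ (i + 2) ≤ ∑ i ∈ Finset.range (N + 1), (1 / 2 : ℝ) ^ (i + 2) := by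
        apply Finset.sum_le_sum_of_subset_of_nonneg
        · rw [hI]; exact Finset.filter_subset _ _
        · intro i _ _; positivity
      have h6 : ∀ n : ℕ, ∑ i ∈ Finset.range n, (1 / 2 : ℝ) ^ (i + 2) = 1 / 2 - (1 / 2) ^ (n + 1) := by
        intro n
        induction n with
        | zero => norm_num
        | succ n ih => rw [Finset.sum_range_succ, ih]; ring
      rw [h6] at h5
      have : (0 : ℝ) < (1 / 2) ^ (N + 1 + 1) := by positivity
      linarith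
    rw [← Finset.sum_mul] at h3
    have h7 : (0 : ℝ) ≤ ((A ∩ Set.Icc 1 N).ncard : ℝ) := by positivity
    have h8 := mul_le_mul_of_nonneg_right h4 h7
    have h9 : ((A ∩ Set.Icc 1 N).ncard : ℝ) ≤ ((B ∩ Set.Icc 1 N).ncard : ℝ) +
        ∑ i ∈ I, ((A ∩ nq (e i).1 ∩ Set.Icc 1 N).ncard : ℝ) := by
      exact_mod_cast h1.trans (Nat.add_le_add_left h2 _)
    linarith
  -- `B` is thin
  have hthin : ThinOnQuadratics B := by
    intro α β γ w hα
    obtain ⟨i, hi⟩ := he ⟨(α, β, γ, w), hα⟩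
    apply (Set.finite_Iio (x i)).subset
    rintro n ⟨hn1, hn2⟩
    rw [hB] at hn1
    apply hn1.2 i
    rw [hi]
    exact hn2
  obtain ⟨m, hm⟩ := h B hthin ⟨2 * C, by linarith, by
    filter_upwards [hC] with N hN
    refine hN.trans ?_
    have := mul_le_mul_of_nonneg_left (hdens N) hC0.le
    linarith⟩ K
  exact absurd (hm.trans (rep_mono hBA m)) (not_le.2 (hK m))

theorem part_four :
    (∀ c : ℝ, c < Real.log (4 / 3) / 8 → ∀ g : ℕ → ℝ,
      (∀ᶠ N : ℕ in atTop, 0 < g N ∧ g N ≤ (N : ℝ) ^ (c / Real.log (Real.log N))) →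
      (ForcesIn (fun _ => True) g ↔ ForcesIn ThinOnQuadratics g)) ∧
    ((∃ g : ℕ → ℝ, Tendsto g atTop atTop ∧ ForcesIn (fun _ => True) g) ↔
      ∃ g : ℕ → ℝ, Tendsto g atTop atTop ∧ ForcesIn ThinOnQuadratics g) := by
  have h1 : ∀ g : ℕ → ℝ, ForcesIn (fun _ => True) g → ForcesIn ThinOnQuadratics g :=
    fun g hg A _ hA => hg A trivial hA
  refine ⟨fun c hc g hg => ⟨h1 g, reduce c hc g hg⟩, ?_⟩
  constructor
  · rintro ⟨g, hg1, hg2⟩
    exact ⟨g, hg1, h1 g hg2⟩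
  · rintro ⟨g, hg1, hg2⟩
    have hl43 : 0 < Real.log (4 / 3) := Real.log_pos (by norm_num)
    obtain ⟨c, hc⟩ : ∃ c : ℝ, c = Real.log (4 / 3) / 16 := ⟨_, rfl⟩
    have hc0 : 0 < c := by rw [hc]; positivity
    obtain ⟨f, hf⟩ : ∃ f : ℕ → ℝ, f = fun N : ℕ => (N : ℝ) ^ (c / Real.log (Real.log N)) := ⟨_, rfl⟩
    have hf1 : Tendsto f atTop atTop := by
      have h2 : Tendsto (fun N : ℕ => Real.exp (c * yy N)) atTop atTop :=
        Real.tendsto_exp_atTop.comp (tendsto_yy.const_mul_atTop hc0)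
      refine h2.congr' ?_
      filter_upwards [eventually_gt_atTop 0] with N hN
      rw [hf]
      exact (rpow_eq hN c).symm
    refine ⟨fun N => min (g N) (f N), ?_, ?_⟩
    · rw [tendsto_atTop] at hg1 hf1 ⊢
      intro b
      filter_upwards [hg1 b, hf1 b] with N h2 h3
      exact le_min h2 h3
    · apply reduce c (by rw [hc]; linarith)
      · filter_upwards [hg1.eventually_gt_atTop 0, hf1.eventually_gt_atTop 0] with N h2 h3
        refine ⟨lt_min h2 h3, ?_⟩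
        rw [hf] at h3 ⊢
        exact min_le_right _ _
      · intro A hA hdens
        obtain ⟨C, hC0, hC⟩ := hdens
        apply hg2 A hA
        refine ⟨C, hC0, ?_⟩
        filter_upwards [hC, hg1.eventually_gt_atTop 0, hf1.eventually_gt_atTop 0] with N h2 h3 h4
        refine le_trans ?_ h2
        exact div_le_div_of_nonneg_left (Real.sqrt_nonneg _) (lt_min h3 h4) (min_le_left _ _)

end Pool.Agent.E8helper93.SQ
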